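import Pool.Agent.H229R3.ED.Phi

set_option autoImplicit false

namespace Pool.Agent.H229R3.ED

open T

/-- final digit of the cell `y` of a column with guards `g`, previous column `p`:
`0` guard, `1` dominated from the left, below or above, `2` not (yet) dominated. -/
def fin3 (p g : ℕ → Bool) (y : ℕ) : ℕ :=
  if g y = true then 0 else if (p y || (g (y - 1) || g (y + 1))) = true then 1 else 2

/-- provisional digit -/
def pr3 (p g : ℕ → Bool) (y : ℕ) : ℕ :=
  if g y = true then 0 else if (p y || g (y - 1)) = true then 1 else 2

def sel (k : ℕ) (P0 P1 P2 : T) : T :=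
  match k with
  | 0 => P0
  | 1 => P1
  | _ => P2

def lst (s : ℕ → ℕ) : ℕ → ℕ → List ℕ
  | _, 0 => []
  | y, n + 1 => s y :: lst s (y + 1) n

def cst (g : ℕ → Bool) : ℕ → ℕ → ℕ
  | y, 0 => if g y = true then 1 else 0
  | y, n + 1 => (if g y = true then lc n else 0) + cst g (y + 1) n

theorem fin3_eq_zero (p g : ℕ → Bool) (y : ℕ) : fin3 p g y = 0 ↔ g y = true := by
  unfold fin3
  split_ifs with h1 h2 <;> simp_all

theorem not_nil_of_ub {t : T} {l : List ℕ} {v : ℕ} (h : ub t l v) : t.isNil = false := by
  cases t with
  | nil => exact absurd h (by simp [ub])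
  | leaf a => rfl
  | node a b c => rfl

theorem notnil3 {k : ℕ} {P0 P1 P2 : T} {l : List ℕ} {v : ℕ} (h : ub (sel k P0 P1 P2) l v) :
    (P0.isNil && (P1.isNil && P2.isNil)) = false := by
  rcases k with _ | _ | k
  · have := not_nil_of_ub h
    simp only [sel] at this
    simp [this]
  · have := not_nil_of_ub h
    simp only [sel] at this
    simp [this]
  · have := not_nil_of_ub h
    simp only [sel] at this
    simp [this]

theorem build_spec (q p g : ℕ → Bool) : ∀ (n y : ℕ) (P0 P1 P2 : T) (v : ℕ),
    (∀ i, i < n → fin3 q p (y + 1 + i) = 2 → g (y + 1 + i) = true) →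
    ub (sel (pr3 p g y) P0 P1 P2) (lst (fin3 q p) (y + 1) n) v →
    ub (build n P0 P1 P2) (lst (fin3 p g) y (n + 1)) (v + cst g (y + 1) n) := by
  intro n
  induction n with
  | zero =>
    intro y P0 P1 P2 v _ h
    have hn := notnil3 h
    simp only [build, hn, lst, cst]
    simp only [lst] at h
    unfold pr3 at h
    unfold fin3
    by_cases hg : g y = true
    · simp only [hg, if_true, sel] at h ⊢
      exact ub_mono _ _ _ _ (Nat.le_add_right _ _) h
    · simp only [hg, if_false] at h ⊢
      by_cases h1 : (p y || g (y - 1)) = true
      · have h2 : (p y || (g (y - 1) || g (y + 1))) = true := by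
          simp only [Bool.or_eq_true] at h1 ⊢
          tauto
        rw [if_pos h1] at h
        rw [if_pos h2]
        simp only [sel] at h
        exact ub_mono _ _ _ _ (Nat.le_add_right _ _) ((ub_mn P1 (add 1 P2) [] v).1 h)
      · rw [if_neg h1] at h
        simp only [sel] at h
        by_cases h3 : g (y + 1) = true
        · have h2 : (p y || (g (y - 1) || g (y + 1))) = true := by
            simp only [Bool.or_eq_true]
            tauto
          rw [if_pos h2]
          simp only [h3, if_true]
          exact (ub_mn P1 (add 1 P2) [] (v + 1)).2 (ub_add 1 P2 [] v h)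
        · have h2 : ¬ (p y || (g (y - 1) || g (y + 1))) = true := by
            simp only [Bool.or_eq_true] at h1 ⊢
            tauto
          rw [if_neg h2]
          simp only [h3]
          exact h
  | succ n ih =>
    intro y P0 P1 P2 v hval h
    have hn := notnil3 h
    simp only [build, hn]
    rw [show lst (fin3 p g) y (n + 1 + 1) = fin3 p g y :: lst (fin3 p g) (y + 1) (n + 1) from rfl]
    rw [show lst (fin3 q p) (y + 1) (n + 1) = fin3 q p (y + 1) :: lst (fin3 q p) (y + 1 + 1) n
      from rfl, ub_ch] at h
    rw [show cst g (y + 1) (n + 1) = (if g (y + 1) = true then lc n else 0)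
      + cst g (y + 1 + 1) n from rfl]
    have hval' : ∀ i, i < n → fin3 q p (y + 1 + 1 + i) = 2 → g (y + 1 + 1 + i) = true := by
      intro i hi hf
      have := hval (i + 1) (by omega)
      rw [show y + 1 + (i + 1) = y + 1 + 1 + i by omega] at this
      exact this hf
    have hs := hval 0 (by omega)
    rw [Nat.add_zero] at hs
    -- the digit of the old column
    have hs0 : fin3 q p (y + 1) = 0 ↔ p (y + 1) = true := fin3_eq_zero q p (y + 1)
    have hs3 : fin3 q p (y + 1) = 0 ∨ fin3 q p (y + 1) = 1 ∨ fin3 q p (y + 1) = 2 := by
      unfold fin3; split_ifs <;> simp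
    by_cases hg1 : g (y + 1) = true
    · -- guard at y + 1
      have hpr : pr3 p g (y + 1) = 0 := by simp [pr3, hg1]
      rw [if_pos hg1]
      generalize hc : lc n = c
      by_cases hg : g y = true
      · have hf : fin3 p g y = 0 := by simp [fin3, hg]
        have hp : pr3 p g y = 0 := by simp [pr3, hg]
        rw [hf]
        rw [hp] at h
        simp only [sel] at h
        rw [← Nat.add_assoc]
        refine ih (y + 1) _ _ _ (v + c) hval' ?_
        rw [hpr]
        simp only [sel]
        refine ub_add _ _ _ _ ?_
        rcases hs3 with h0 | h0 | h0 <;> rw [h0] at h <;> simp only [ch] at h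
        · exact (ub_mn _ _ _ _).1 h
        · exact (ub_mn _ _ _ _).2 ((ub_mn _ _ _ _).1 h)
        · exact (ub_mn _ _ _ _).2 ((ub_mn _ _ _ _).2 h)
      · have hf : fin3 p g y = 1 := by simp [fin3, hg, hg1]
        rw [hf]
        rw [← Nat.add_assoc]
        refine ih (y + 1) _ _ _ (v + c) hval' ?_
        rw [hpr]
        simp only [sel]
        refine ub_add _ _ _ _ ?_
        by_cases h1 : (p y || g (y - 1)) = true
        · have hp : pr3 p g y = 1 := by simp only [pr3, hg, if_false, h1, if_true]; simp
          rw [hp] at h
          simp only [sel] at h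
          refine (ub_mn _ _ _ _).1 ?_
          rcases hs3 with h0 | h0 | h0 <;> rw [h0] at h <;> simp only [ch] at h
          · exact (ub_mn _ _ _ _).1 h
          · exact (ub_mn _ _ _ _).2 ((ub_mn _ _ _ _).1 h)
          · exact (ub_mn _ _ _ _).2 ((ub_mn _ _ _ _).2 h)
        · have hp : pr3 p g y = 2 := by simp only [pr3, hg, if_false, h1]; simp
          rw [hp] at h
          simp only [sel] at h
          refine (ub_mn _ _ _ _).2 ?_
          rcases hs3 with h0 | h0 | h0 <;> rw [h0] at h <;> simp only [ch] at h
          · exact (ub_mn _ _ _ _).1 h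
          · exact (ub_mn _ _ _ _).2 ((ub_mn _ _ _ _).1 h)
          · exact (ub_mn _ _ _ _).2 ((ub_mn _ _ _ _).2 h)
    · -- no guard at y + 1
      rw [if_neg hg1, Nat.zero_add]
      have hne2 : fin3 q p (y + 1) ≠ 2 := fun h2 => hg1 (hs h2)
      by_cases hg : g y = true
      · have hf : fin3 p g y = 0 := by simp [fin3, hg]
        have hp : pr3 p g y = 0 := by simp [pr3, hg]
        rw [hf]
        rw [hp] at h
        simp only [sel] at h
        refine ih (y + 1) _ _ _ v hval' ?_
        have hpr : pr3 p g (y + 1) = 1 := by simp [pr3, hg1, hg]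
        rw [hpr]
        simp only [sel]
        rcases hs3 with h0 | h0 | h0
        · rw [h0] at h; simp only [ch] at h; exact (ub_mn _ _ _ _).1 h
        · rw [h0] at h; simp only [ch] at h; exact (ub_mn _ _ _ _).2 h
        · exact absurd h0 hne2
      · by_cases h1 : (p y || g (y - 1)) = true
        · have hf : fin3 p g y = 1 := by
            have h2 : (p y || (g (y - 1) || g (y + 1))) = true := by
              simp only [Bool.or_eq_true] at h1 ⊢
              tauto
            simp only [fin3, hg, if_false, h2, if_true]; simp
          have hp : pr3 p g y = 1 := by simp only [pr3, hg, if_false, h1, if_true]; simp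
          rw [hf]
          rw [hp] at h
          simp only [sel] at h
          refine ih (y + 1) _ _ _ v hval' ?_
          rcases hs3 with h0 | h0 | h0
          · have hpr : pr3 p g (y + 1) = 1 := by simp [pr3, hg1, hs0.mp h0]
            rw [hpr]
            rw [h0] at h; simp only [ch] at h
            simp only [sel]; exact h
          · have hpf : p (y + 1) = false := by
              rcases hb : p (y + 1) with _ | _
              · rfl
              · exact absurd (hs0.mpr hb) (by omega)
            have hgf : g y = false := by simpa using hg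
            have hpr : pr3 p g (y + 1) = 2 := by simp [pr3, hg1, hpf, hgf]
            rw [hpr]
            rw [h0] at h; simp only [ch] at h
            simp only [sel]; exact h
          · exact absurd h0 hne2
        · have hgf1 : g (y + 1) = false := by simpa using hg1
          have hf : fin3 p g y = 2 := by
            have h2 : ¬ (p y || (g (y - 1) || g (y + 1))) = true := by
              simp only [Bool.or_eq_true] at h1 ⊢
              tauto
            simp only [fin3, hg, if_false, h2]; simp
          have hp : pr3 p g y = 2 := by simp only [pr3, hg, if_false, h1]; simp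
          rw [hf]
          rw [hp] at h
          simp only [sel] at h
          refine ih (y + 1) _ _ _ v hval' ?_
          rcases hs3 with h0 | h0 | h0
          · have hpr : pr3 p g (y + 1) = 1 := by simp [pr3, hg1, hs0.mp h0]
            rw [hpr]
            rw [h0] at h; simp only [ch] at h
            simp only [sel]; exact h
          · have hpf : p (y + 1) = false := by
              rcases hb : p (y + 1) with _ | _
              · rfl
              · exact absurd (hs0.mpr hb) (by omega)
            have hgf : g y = false := by simpa using hg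
            have hpr : pr3 p g (y + 1) = 2 := by simp [pr3, hg1, hpf, hgf]
            rw [hpr]
            rw [h0] at h; simp only [ch] at h
            simp only [sel]; exact h
          · exact absurd h0 hne2

/-- weight of a column: `5` for rows `1..9`, `4` for row `10`, `1` for row `11` -/
def colw (g : ℕ → Bool) : ℕ := (if g 1 = true then 5 else 0) + cst g 2 9

theorem step_spec (q p g : ℕ → Bool) (P : T) (v : ℕ) (hg0 : g 0 = false)
    (hval : ∀ i, 1 ≤ i → i ≤ 10 → fin3 q p i = 2 → g i = true)
    (h : ub P (lst (fin3 q p) 1 10) v) :
    ub (step 9 P) (lst (fin3 p g) 1 10) (v + colw g) := by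
  unfold step colw
  rw [← Nat.add_assoc]
  rw [show lst (fin3 q p) 1 10 = fin3 q p 1 :: lst (fin3 q p) 2 9 from rfl, ub_ch] at h
  refine build_spec q p g 9 1 _ _ _ _ (fun i hi => hval (1 + 1 + i) (by omega) (by omega)) ?_
  have hs0 : fin3 q p 1 = 0 ↔ p 1 = true := fin3_eq_zero q p 1
  have hs3 : fin3 q p 1 = 0 ∨ fin3 q p 1 = 1 ∨ fin3 q p 1 = 2 := by
    unfold fin3; split_ifs <;> simp
  by_cases hg : g 1 = true
  · have hpr : pr3 p g 1 = 0 := by simp [pr3, hg]
    rw [hpr, if_pos hg]
    simp only [sel]
    refine ub_add _ _ _ _ ?_
    rcases hs3 with h0 | h0 | h0 <;> rw [h0] at h <;> simp only [ch] at h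
    · exact (ub_mn _ _ _ _).1 h
    · exact (ub_mn _ _ _ _).2 ((ub_mn _ _ _ _).1 h)
    · exact (ub_mn _ _ _ _).2 ((ub_mn _ _ _ _).2 h)
  · rw [if_neg hg, Nat.add_zero]
    rcases hs3 with h0 | h0 | h0
    · have hpr : pr3 p g 1 = 1 := by simp [pr3, hg, hs0.mp h0]
      rw [hpr]
      rw [h0] at h; simp only [ch] at h
      simp only [sel]; exact h
    · have hpf : p 1 = false := by
        rcases hb : p 1 with _ | _
        · rfl
        · exact absurd (hs0.mpr hb) (by omega)
      have hpr : pr3 p g 1 = 2 := by simp [pr3, hg, hpf, hg0]
      rw [hpr]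
      rw [h0] at h; simp only [ch] at h
      simp only [sel]; exact h
    · exact absurd (hval 1 (by omega) (by omega) h0) hg

end Pool.Agent.H229R3.ED
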