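import Pool.Agent.H229R3.ED.Grid

set_option autoImplicit false

namespace Pool.Agent.H229R3.ED

open Finset

/-- type map: collapses the middle of the side to one period of length five -/
def tau (m x : ℕ) : ℕ :=
  if x < 12 then x else if x < 12 + 5 * m then 7 + (x - 7) % 5 else x - 5 * m

/-- the value of the compressed bitmap `S` (row width `w`) at the cell `(x, y)` -/
def gg (w m S x y : ℕ) : Bool := S.testBit (tau m x + w * tau m y)

def disj5 (a b c d e : ℕ) : Bool :=
  Nat.land a b == 0 && (Nat.land a c == 0 && (Nat.land a d == 0 && (Nat.land a e == 0 &&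
  (Nat.land b c == 0 && (Nat.land b d == 0 && (Nat.land b e == 0 &&
  (Nat.land c d == 0 && (Nat.land c e == 0 && Nat.land d e == 0))))))))

def or5 (a b c d e : ℕ) : ℕ := Nat.lor a (Nat.lor b (Nat.lor c (Nat.lor d e)))

def per (w MX MY S : ℕ) : Bool :=
  Nat.land (Nat.xor (Nat.shiftRight S 5) S) MX == 0 &&
  Nat.land (Nat.xor (Nat.shiftRight S (5 * w)) S) MY == 0

def chkT (w R MX MY C C' S0 S1 S2 S3 S4 : ℕ) : Bool :=
  disj5 S0 S1 S2 S3 S4 && (or5 S0 S1 S2 S3 S4 == C &&
  (disj5 S0 (Nat.shiftLeft S1 1) (Nat.shiftRight S2 1) (Nat.shiftLeft S3 w) (Nat.shiftRight S4 w) &&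
  (or5 S0 (Nat.shiftLeft S1 1) (Nat.shiftRight S2 1) (Nat.shiftLeft S3 w) (Nat.shiftRight S4 w) == C' &&
  (Nat.lor C R == R && (Nat.lor C' R == R &&
  (per w MX MY S1 && (per w MX MY S2 && (per w MX MY S3 && per w MX MY S4))))))))

theorem land_spec {a b : ℕ} (h : (Nat.land a b == 0) = true) (k : ℕ) :
    ¬ (a.testBit k = true ∧ b.testBit k = true) := by
  intro hk
  have h1 : a &&& b = 0 := beq_iff_eq.mp h
  have h2 := congrArg (fun z => Nat.testBit z k) h1
  simp only [Nat.testBit_land, Nat.zero_testBit, hk.1, hk.2] at h2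
  exact absurd h2 (by simp)

theorem lor_spec {a r : ℕ} (h : (Nat.lor a r == r) = true) (k : ℕ) (hk : a.testBit k = true) :
    r.testBit k = true := by
  have h1 : a ||| r = r := beq_iff_eq.mp h
  rw [← h1, Nat.testBit_lor, hk, Bool.true_or]

theorem or5_testBit (a b c d e k : ℕ) : (or5 a b c d e).testBit k =
    (a.testBit k || (b.testBit k || (c.testBit k || (d.testBit k || e.testBit k)))) := by
  show (a ||| (b ||| (c ||| (d ||| e)))).testBit k = _
  simp only [Nat.testBit_lor]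

theorem land_xor_spec {s t M : ℕ} (h : (Nat.land (Nat.xor s t) M == 0) = true) (k : ℕ)
    (hk : M.testBit k = true) : s.testBit k = t.testBit k := by
  have h1 : (s ^^^ t) &&& M = 0 := beq_iff_eq.mp h
  have h2 := congrArg (fun z => Nat.testBit z k) h1
  simp only [Nat.testBit_land, Nat.testBit_xor, Nat.zero_testBit, hk, Bool.and_true] at h2
  revert h2
  cases s.testBit k <;> cases t.testBit k <;> simp

/-- the mask data are correct -/
def maskOK (n0 w R MX MY : ℕ) : Prop :=
  17 ≤ n0 ∧ w = n0 + 2 ∧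
  (∀ a, a < w → ∀ b, b < w → R.testBit (a + w * b) = true → 1 ≤ a ∧ a ≤ n0 ∧ 1 ≤ b ∧ b ≤ n0) ∧
  (∀ a, a < w → ∀ b, b < w → 1 ≤ a ∧ a ≤ n0 ∧ 1 ≤ b ∧ b ≤ n0 → R.testBit (a + w * b) = true) ∧
  (∀ b, b < w → MX.testBit (7 + w * b) = true ∧ MX.testBit (6 + w * b) = true ∧
    MY.testBit (b + w * 7) = true ∧ MY.testBit (b + w * 6) = true)

def maskB (n0 w R MX MY : ℕ) : Bool :=
  Nat.ble 17 n0 && (Nat.beq w (n0 + 2) &&
  ((List.range w).all (fun a => (List.range w).all (fun b =>
    R.testBit (a + w * b) == (Nat.ble 1 a && (Nat.ble a n0 && (Nat.ble 1 b && Nat.ble b n0))))) &&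
  (List.range w).all (fun b => MX.testBit (7 + w * b) && (MX.testBit (6 + w * b) &&
    (MY.testBit (b + w * 7) && MY.testBit (b + w * 6))))))

theorem maskOK_of_maskB {n0 w R MX MY : ℕ} (h : maskB n0 w R MX MY = true) :
    maskOK n0 w R MX MY := by
  unfold maskB at h
  simp only [Bool.and_eq_true, List.all_eq_true, List.mem_range, Nat.ble_eq, Nat.beq_eq,
    beq_iff_eq] at h
  obtain ⟨h1, h2, h3, h4⟩ := h
  refine ⟨h1, h2, ?_, ?_, ?_⟩
  · intro a ha b hb hR
    have := h3 a ha b hb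
    rw [hR] at this
    simp only [Bool.and_eq_true, Nat.ble_eq, eq_comm (a := true)] at this
    exact this
  · intro a ha b hb hR
    have := h3 a ha b hb
    rw [this]
    simp only [Bool.and_eq_true, Nat.ble_eq]
    exact hR
  · intro b hb
    exact h4 b hb

theorem tau_le {n0 m x : ℕ} (h0 : 17 ≤ n0) (hx : x ≤ n0 + 5 * m + 1) : tau m x < n0 + 2 := by
  unfold tau
  split_ifs <;> omega

theorem tau_real {n0 m x : ℕ} (h0 : 17 ≤ n0) (h1 : 1 ≤ x) (hx : x ≤ n0 + 5 * m) :
    1 ≤ tau m x ∧ tau m x ≤ n0 := by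
  unfold tau
  split_ifs <;> omega

theorem tau_ring {n0 m x : ℕ} (h0 : 17 ≤ n0) (hx : x ≤ n0 + 5 * m + 1)
    (h1 : 1 ≤ tau m x) (h2 : tau m x ≤ n0) : 1 ≤ x ∧ x ≤ n0 + 5 * m := by
  unfold tau at h1 h2
  split_ifs at h1 h2 <;> omega

theorem tau_succ (m x : ℕ) : tau m (x + 1) = tau m x + 1 ∨ (tau m x = 11 ∧ tau m (x + 1) = 7) := by
  unfold tau
  split_ifs <;> omega

section

variable {n0 w R MX MY : ℕ} (hM : maskOK n0 w R MX MY) {m : ℕ}

include hM

theorem per_x {S : ℕ} (hS : per w MX MY S = true) {x η : ℕ} (hη : η < w) :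
    S.testBit (tau m x + 1 + w * η) = S.testBit (tau m (x + 1) + w * η) ∧
    S.testBit (tau m (x + 1) - 1 + w * η) = S.testBit (tau m x + w * η) := by
  unfold per at hS
  rw [Bool.and_eq_true] at hS
  obtain ⟨h1, -⟩ := hS
  obtain ⟨-, -, -, -, hm⟩ := hM
  obtain ⟨m7, m6, -, -⟩ := hm η hη
  have e7 := land_xor_spec h1 _ m7
  have e6 := land_xor_spec h1 _ m6
  have r7 : (Nat.shiftRight S 5).testBit (7 + w * η) = S.testBit (12 + w * η) := by
    show (S >>> 5).testBit _ = _
    rw [Nat.testBit_shiftRight]; congr 1; omega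
  have r6 : (Nat.shiftRight S 5).testBit (6 + w * η) = S.testBit (11 + w * η) := by
    show (S >>> 5).testBit _ = _
    rw [Nat.testBit_shiftRight]; congr 1; omega
  rw [r7] at e7
  rw [r6] at e6
  rcases tau_succ m x with h | ⟨h, h'⟩
  · rw [h, Nat.add_sub_cancel]
    exact ⟨rfl, rfl⟩
  · rw [h, h']
    exact ⟨e7, e6.symm⟩

theorem per_y {S : ℕ} (hS : per w MX MY S = true) {y ξ : ℕ} (hξ : ξ < w) :
    S.testBit (ξ + w * (tau m y + 1)) = S.testBit (ξ + w * tau m (y + 1)) ∧
    S.testBit (ξ + w * (tau m (y + 1) - 1)) = S.testBit (ξ + w * tau m y) := by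
  unfold per at hS
  rw [Bool.and_eq_true] at hS
  obtain ⟨-, h1⟩ := hS
  obtain ⟨-, -, -, -, hm⟩ := hM
  obtain ⟨-, -, m7, m6⟩ := hm ξ hξ
  have e7 := land_xor_spec h1 _ m7
  have e6 := land_xor_spec h1 _ m6
  have r7 : (Nat.shiftRight S (5 * w)).testBit (ξ + w * 7) = S.testBit (ξ + w * 12) := by
    show (S >>> (5 * w)).testBit _ = _
    rw [Nat.testBit_shiftRight]; congr 1; ring
  have r6 : (Nat.shiftRight S (5 * w)).testBit (ξ + w * 6) = S.testBit (ξ + w * 11) := by
    show (S >>> (5 * w)).testBit _ = _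
    rw [Nat.testBit_shiftRight]; congr 1; ring
  rw [r7] at e7
  rw [r6] at e6
  rcases tau_succ m y with h | ⟨h, h'⟩
  · rw [h, Nat.add_sub_cancel]
    exact ⟨rfl, rfl⟩
  · rw [h, h']
    exact ⟨e7, e6.symm⟩

theorem real_of_R {S : ℕ} (hS : (Nat.lor S R == R) = true) {x y : ℕ}
    (hx : x ≤ n0 + 5 * m + 1) (hy : y ≤ n0 + 5 * m + 1) (h : gg w m S x y = true) :
    inR (n0 + 5 * m) (x, y) := by
  obtain ⟨h0, hw, hR, -, -⟩ := hM
  have h1 := lor_spec hS _ h
  obtain ⟨a1, a2, a3, a4⟩ := hR _ (by rw [hw]; exact tau_le h0 hx) _ (by rw [hw]; exact tau_le h0 hy) h1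
  obtain ⟨c1, c2⟩ := tau_ring h0 hx a1 a2
  obtain ⟨c3, c4⟩ := tau_ring h0 hy a3 a4
  exact ⟨c1, c2, c3, c4⟩

theorem moves_of_chkT {C C' S0 S1 S2 S3 S4 : ℕ}
    (h : chkT w R MX MY C C' S0 S1 S2 S3 S4 = true) :
    Moves (n0 + 5 * m) (gg w m C) (gg w m C') (gg w m S0) (gg w m S1) (gg w m S2)
      (gg w m S3) (gg w m S4) := by
  unfold chkT disj5 at h
  simp only [Bool.and_eq_true] at h
  obtain ⟨⟨s01, s02, s03, s04, s12, s13, s14, s23, s24, s34⟩, hC,
    ⟨t01, t02, t03, t04, t12, t13, t14, t23, t24, t34⟩, hC', hCR, hCR', p1, p2, p3, p4⟩ := h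
  have h0 : 17 ≤ n0 := hM.1
  have hw : w = n0 + 2 := hM.2.1
  -- membership in C and C'
  have mC : ∀ k, C.testBit k = (S0.testBit k || (S1.testBit k || (S2.testBit k ||
      (S3.testBit k || S4.testBit k)))) := by
    intro k
    rw [← or5_testBit, beq_iff_eq.mp hC]
  have mC' : ∀ k, C'.testBit k = (S0.testBit k || ((Nat.shiftLeft S1 1).testBit k ||
      ((Nat.shiftRight S2 1).testBit k ||
      ((Nat.shiftLeft S3 w).testBit k || (Nat.shiftRight S4 w).testBit k)))) := by
    intro k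
    rw [← or5_testBit, beq_iff_eq.mp hC']
  -- shifted bits
  have u1 : ∀ x y, x ≤ n0 + 5 * m → y ≤ n0 + 5 * m + 1 →
      (Nat.shiftLeft S1 1).testBit (tau m (x + 1) + w * tau m y) = gg w m S1 x y := by
    intro x y hx hy
    have hpos : 1 ≤ tau m (x + 1) := by
      unfold tau; split_ifs <;> omega
    show (S1 <<< 1).testBit _ = _
    rw [Nat.testBit_shiftLeft]
    have h1 : decide (tau m (x + 1) + w * tau m y ≥ 1) = true := decide_eq_true (by omega)
    rw [h1, Bool.true_and, show tau m (x + 1) + w * tau m y - 1 = tau m (x + 1) - 1 + w * tau m y by omega]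
    exact (per_x hM p1 (by rw [hw]; exact tau_le h0 hy)).2
  have u2 : ∀ x y, y ≤ n0 + 5 * m + 1 →
      (Nat.shiftRight S2 1).testBit (tau m x + w * tau m y) = gg w m S2 (x + 1) y := by
    intro x y hy
    show (S2 >>> 1).testBit _ = _
    rw [Nat.testBit_shiftRight, show 1 + (tau m x + w * tau m y) = tau m x + 1 + w * tau m y by omega]
    exact (per_x hM p2 (by rw [hw]; exact tau_le h0 hy)).1
  have u3 : ∀ x y, y ≤ n0 + 5 * m → x ≤ n0 + 5 * m + 1 →
      (Nat.shiftLeft S3 w).testBit (tau m x + w * tau m (y + 1)) = gg w m S3 x y := by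
    intro x y hy hx
    have hpos : 1 ≤ tau m (y + 1) := by
      unfold tau; split_ifs <;> omega
    obtain ⟨k, hk⟩ : ∃ k, tau m (y + 1) = k + 1 := ⟨tau m (y + 1) - 1, by omega⟩
    have hpy := (per_y hM p3 (y := y) (m := m) (ξ := tau m x) (by rw [hw]; exact tau_le h0 hx)).2
    rw [hk, Nat.add_sub_cancel] at hpy
    show (S3 <<< w).testBit _ = _
    rw [Nat.testBit_shiftLeft, hk]
    have e : tau m x + w * (k + 1) = tau m x + w * k + w := by ring
    have h1 : decide (tau m x + w * (k + 1) ≥ w) = true := decide_eq_true (by omega)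
    rw [h1, Bool.true_and, e, Nat.add_sub_cancel]
    exact hpy
  have u4 : ∀ x y, x ≤ n0 + 5 * m + 1 →
      (Nat.shiftRight S4 w).testBit (tau m x + w * tau m y) = gg w m S4 x (y + 1) := by
    intro x y hx
    show (S4 >>> w).testBit _ = _
    rw [Nat.testBit_shiftRight, show w + (tau m x + w * tau m y) = tau m x + w * (tau m y + 1) by ring]
    exact (per_y hM p4 (by rw [hw]; exact tau_le h0 hx)).1
  have ctrue : ∀ x y, x ≤ n0 + 5 * m + 1 → y ≤ n0 + 5 * m + 1 → gg w m C x y = true →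
      inR (n0 + 5 * m) (x, y) := fun x y hx hy hc => real_of_R hM hCR hx hy hc
  have ctrue' : ∀ x y, x ≤ n0 + 5 * m + 1 → y ≤ n0 + 5 * m + 1 → gg w m C' x y = true →
      inR (n0 + 5 * m) (x, y) := fun x y hx hy hc => real_of_R hM hCR' hx hy hc
  refine
    { src := ?_, sub := ?_
      d12 := fun x y => land_spec s12 _, d13 := fun x y => land_spec s13 _
      d14 := fun x y => land_spec s14 _, d23 := fun x y => land_spec s23 _
      d24 := fun x y => land_spec s24 _, d34 := fun x y => land_spec s34 _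
      d01 := fun x y => land_spec s01 _, d02 := fun x y => land_spec s02 _
      d03 := fun x y => land_spec s03 _, d04 := fun x y => land_spec s04 _
      tgt := ?_, cov := ?_
      t12 := ?_, t13 := ?_, t14 := ?_, t23 := ?_, t24 := ?_, t34 := ?_
      t01 := ?_, t02 := ?_, t03 := ?_, t04 := ?_ }
  · intro x y _ hP
    unfold gg at hP ⊢
    rw [mC] at hP
    simpa only [Bool.or_eq_true] using hP
  · intro x y hx hy hor
    have hP : gg w m C x y = true := by
      unfold gg at hor ⊢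
      rw [mC]
      simpa only [Bool.or_eq_true] using hor
    exact ⟨ctrue x y hx hy hP, hP⟩
  · intro x y hx hy hor
    have hQ : gg w m C' x y = true := by
      unfold gg
      rw [mC']
      simp only [Bool.or_eq_true]
      rcases hor with h0' | ⟨hx1, h1⟩ | ⟨hx1, h2⟩ | ⟨hy1, h3⟩ | ⟨hy1, h4⟩
      · exact Or.inl h0'
      · refine Or.inr (Or.inl ?_)
        have := u1 (x - 1) y (by omega) hy
        rw [Nat.sub_add_cancel hx1] at this
        rw [this]; exact h1
      · refine Or.inr (Or.inr (Or.inl ?_))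
        rw [u2 x y hy]; exact h2
      · refine Or.inr (Or.inr (Or.inr (Or.inl ?_)))
        have := u3 x (y - 1) (by omega) hx
        rw [Nat.sub_add_cancel hy1] at this
        rw [this]; exact h3
      · refine Or.inr (Or.inr (Or.inr (Or.inr ?_)))
        rw [u4 x y hx]; exact h4
    exact ⟨ctrue' x y hx hy hQ, hQ⟩
  · intro x y hr hQ
    obtain ⟨hx1, hx2, hy1, hy2⟩ := hr
    simp only at hx1 hx2 hy1 hy2
    unfold gg at hQ
    rw [mC'] at hQ
    simp only [Bool.or_eq_true] at hQ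
    have a1 := u1 (x - 1) y (by omega) (by omega)
    rw [Nat.sub_add_cancel hx1] at a1
    have a3 := u3 x (y - 1) (by omega) (by omega)
    rw [Nat.sub_add_cancel hy1] at a3
    rw [a1, u2 x y (by omega), a3, u4 x y (by omega)] at hQ
    exact hQ
  all_goals
    intro x y hr
    obtain ⟨hx1, hx2, hy1, hy2⟩ := hr
    simp only at hx1 hx2 hy1 hy2
    have a1 := u1 (x - 1) y (by omega) (by omega)
    rw [Nat.sub_add_cancel hx1] at a1
    have a3 := u3 x (y - 1) (by omega) (by omega)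
    rw [Nat.sub_add_cancel hy1] at a3
    have a2 := u2 x y (by omega)
    have a4 := u4 x y (by omega)
  · rw [← a1, ← a2]; exact land_spec t12 _
  · rw [← a1, ← a3]; exact land_spec t13 _
  · rw [← a1, ← a4]; exact land_spec t14 _
  · rw [← a2, ← a3]; exact land_spec t23 _
  · rw [← a2, ← a4]; exact land_spec t24 _
  · rw [← a3, ← a4]; exact land_spec t34 _
  · rw [← a1]; exact land_spec t01 _
  · rw [← a2]; exact land_spec t02 _
  · rw [← a3]; exact land_spec t03 _
  · rw [← a4]; exact land_spec t04 _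

end

end Pool.Agent.H229R3.ED
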