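import Pool.Agent.H229R3.ED.Bits

set_option autoImplicit false

namespace Pool.Agent.H229R3.ED

open Finset

/-- transitions out of a configuration: target index and the bitmaps of the guards that move
right, left, up, down -/
abbrev Trans := ℕ × ℕ × ℕ × ℕ × ℕ

abbrev Fam := List (ℕ × List Trans)

def getC (L : Fam) (v : ℕ) : ℕ := (L.getD v (0, [])).1

def sumN (f : ℕ → ℕ) : ℕ → ℕ
  | 0 => 0
  | n + 1 => sumN f n + f n

theorem sumN_eq (f : ℕ → ℕ) (n : ℕ) : sumN f n = ∑ i ∈ range n, f i := by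
  induction n with
  | zero => simp [sumN]
  | succ n ih => rw [sumN, ih, sum_range_succ]

def tb (C k : ℕ) : ℕ := cond (C.testBit k) 1 0

def transOK (w R MX MY : ℕ) (L : Fam) (C : ℕ) (t : Trans) : Bool :=
  Nat.blt t.1 L.length &&
  chkT w R MX MY C (getC L t.1)
    (Nat.xor C (Nat.xor t.2.1 (Nat.xor t.2.2.1 (Nat.xor t.2.2.2.1 t.2.2.2.2))))
    t.2.1 t.2.2.1 t.2.2.2.1 t.2.2.2.2

def stateOK (w R MX MY : ℕ) (L : Fam) (p : ℕ × List Trans) : Bool :=
  p.2.all (fun t => transOK w R MX MY L p.1 t) &&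
  (p.2.foldl (fun acc t => Nat.lor acc (getC L t.1)) p.1 == R)

def cardOK (n0 w C : ℕ) : Bool :=
  Nat.ble (5 * sumN (fun a => sumN (fun b => tb C (a + 1 + w * (b + 1))) n0) n0)
    (n0 * n0 + 4 * n0 + 400) &&
  (Nat.ble (5 * (sumN (fun a => sumN (fun b => tb C (7 + a + w * (b + 1))) n0) 5 +
      sumN (fun a => sumN (fun b => tb C (a + 1 + w * (7 + b))) 5) n0))
    (10 * n0 + 20) &&
  Nat.ble (5 * sumN (fun a => sumN (fun b => tb C (7 + a + w * (7 + b))) 5) 5) 25)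

def famOK (n0 w R MX MY : ℕ) (L : Fam) : Bool :=
  maskB n0 w R MX MY && (L.all (stateOK w R MX MY L) &&
    (Nat.blt 0 L.length && cardOK n0 w (getC L 0)))

theorem foldl_lor (g : Trans → ℕ) : ∀ (l : List Trans) (a k : ℕ),
    (l.foldl (fun acc t => Nat.lor acc (g t)) a).testBit k = true →
    a.testBit k = true ∨ ∃ t ∈ l, (g t).testBit k = true := by
  intro l
  induction l with
  | nil => intro a k h; exact Or.inl h
  | cons t l ih =>
    intro a k h
    rw [List.foldl_cons] at h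
    rcases ih _ k h with h1 | ⟨t', ht', h1⟩
    · have h2 : (a ||| g t).testBit k = true := h1
      rw [Nat.testBit_lor, Bool.or_eq_true] at h2
      rcases h2 with h2 | h2
      · exact Or.inl h2
      · exact Or.inr ⟨t, List.mem_cons_self, h2⟩
    · exact Or.inr ⟨t', List.mem_cons_of_mem _ ht', h1⟩

theorem getC_mem (L : Fam) (v : ℕ) (hv : v < L.length) : ∃ p ∈ L, p.1 = getC L v := by
  refine ⟨L[v], List.getElem_mem hv, ?_⟩
  unfold getC
  rw [List.getD_eq_getElem _ _ hv]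

/-- the property defining an eternal family -/
def Eternal (n k : ℕ) : Prop :=
  ∃ F : Set (Finset (Fin n × Fin n)), F.Nonempty ∧ (∀ D ∈ F, D.card = k) ∧
    ∀ D ∈ F, ∀ v : Fin n × Fin n, ∃ D' ∈ F, v ∈ D' ∧
      ∃ f : Fin n × Fin n → Fin n × Fin n,
        Set.InjOn f (D : Set (Fin n × Fin n)) ∧ D.image f = D' ∧
        ∀ x ∈ D, f x = x ∨ (grid n).Adj x (f x)

theorem eternal_of_famOK {n0 w R MX MY : ℕ} {L : Fam} (h : famOK n0 w R MX MY L = true) (m : ℕ) :
    Eternal (n0 + 5 * m) (cells (n0 + 5 * m) (gg w m (getC L 0))).card := by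
  unfold famOK at h
  rw [Bool.and_eq_true, Bool.and_eq_true, Bool.and_eq_true] at h
  obtain ⟨hm, hs, hlen, -⟩ := h
  have hM := maskOK_of_maskB hm
  have hlen' : 0 < L.length := by
    simp only [Nat.blt, Nat.ble_eq] at hlen
    omega
  rw [List.all_eq_true] at hs
  refine ⟨{D | (∃ p ∈ L, D = cells (n0 + 5 * m) (gg w m p.1)) ∧
    D.card = (cells (n0 + 5 * m) (gg w m (getC L 0))).card}, ?_, ?_, ?_⟩
  · obtain ⟨p, hp, hp'⟩ := getC_mem L 0 hlen'
    exact ⟨_, ⟨p, hp, by rw [hp']⟩, rfl⟩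
  · rintro D ⟨-, h⟩
    exact h
  · rintro D ⟨⟨p, hp, rfl⟩, hcard⟩ v
    have hp1 := hs p hp
    unfold stateOK at hp1
    rw [Bool.and_eq_true, List.all_eq_true] at hp1
    obtain ⟨htr, hcov⟩ := hp1
    have hR : R.testBit (tau m (v.1.1 + 1) + w * tau m (v.2.1 + 1)) = true := by
      obtain ⟨h0, hw, -, hR, -⟩ := hM
      obtain ⟨a1, a2⟩ := tau_real (m := m) h0 (show 1 ≤ v.1.1 + 1 by omega)
        (by have := v.1.2; omega)
      obtain ⟨a3, a4⟩ := tau_real (m := m) h0 (show 1 ≤ v.2.1 + 1 by omega)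
        (by have := v.2.2; omega)
      exact hR _ (by omega) _ (by omega) ⟨a1, a2, a3, a4⟩
    rw [← beq_iff_eq.mp hcov] at hR
    rcases foldl_lor (fun t => getC L t.1) p.2 p.1 _ hR with h1 | ⟨t, ht, h1⟩
    · refine ⟨_, ⟨⟨p, hp, rfl⟩, hcard⟩, mem_filter.mpr ⟨mem_univ _, h1⟩, id,
        Set.injOn_id _, image_id, fun x _ => Or.inl rfl⟩
    · have ht1 := htr t ht
      unfold transOK at ht1
      rw [Bool.and_eq_true] at ht1
      obtain ⟨hlt, hchk⟩ := ht1
      have hlt' : t.1 < L.length := by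
        simp only [Nat.blt, Nat.ble_eq] at hlt
        omega
      obtain ⟨f, hf1, hf2, hf3⟩ := (moves_of_chkT hM (m := m) hchk).exists_map
      obtain ⟨q, hq, hq'⟩ := getC_mem L t.1 hlt'
      refine ⟨cells (n0 + 5 * m) (gg w m (getC L t.1)), ⟨⟨q, hq, by rw [hq']⟩, ?_⟩,
        mem_filter.mpr ⟨mem_univ _, h1⟩, f, hf1, hf2, hf3⟩
      rw [← hf2, card_image_of_injOn hf1]
      exact hcard

theorem sum_mod (f : ℕ → ℕ) (m : ℕ) :
    ∑ t ∈ range (5 * m), f (7 + t % 5) = m * ∑ i ∈ range 5, f (7 + i) := by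
  induction m with
  | zero => simp
  | succ m ih =>
    rw [show 5 * (m + 1) = 5 * m + 5 by ring, sum_range_add, ih, add_mul, one_mul]
    congr 1
    apply sum_congr rfl
    intro i hi
    rw [mem_range] at hi
    rw [Nat.mul_add_mod, Nat.mod_eq_of_lt hi]

theorem tau_sum (f : ℕ → ℕ) (n0 m : ℕ) (h0 : 17 ≤ n0) :
    ∑ x ∈ range (n0 + 5 * m), f (tau m (x + 1)) =
      ∑ a ∈ range n0, f (a + 1) + m * ∑ i ∈ range 5, f (7 + i) := by
  rw [show n0 + 5 * m = 11 + 5 * m + (n0 - 11) by omega, sum_range_add, sum_range_add,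
    ← sum_mod f m]
  have h1 : ∑ x ∈ range 11, f (tau m (x + 1)) = ∑ x ∈ range 11, f (x + 1) := by
    apply sum_congr rfl
    intro x hx
    rw [mem_range] at hx
    rw [tau, if_pos (by omega)]
  have h2 : ∑ x ∈ range (5 * m), f (tau m (11 + x + 1)) = ∑ x ∈ range (5 * m), f (7 + x % 5) := by
    apply sum_congr rfl
    intro x hx
    rw [mem_range] at hx
    rw [tau, if_neg (by omega), if_pos (by omega)]
    congr 2
    omega
  have h3 : ∑ x ∈ range (n0 - 11), f (tau m (11 + 5 * m + x + 1)) =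
      ∑ x ∈ range (n0 - 11), f (11 + x + 1) := by
    apply sum_congr rfl
    intro x hx
    rw [mem_range] at hx
    rw [tau, if_neg (by omega), if_neg (by omega)]
    congr 1
    omega
  have h4 : ∑ a ∈ range n0, f (a + 1) =
      ∑ x ∈ range 11, f (x + 1) + ∑ x ∈ range (n0 - 11), f (11 + x + 1) := by
    conv_lhs => rw [show n0 = 11 + (n0 - 11) by omega]
    rw [sum_range_add]
  rw [h1, h2, h3, h4]
  ring

theorem card_cells (n : ℕ) (P : ℕ → ℕ → Bool) :
    (cells n P).card = ∑ x ∈ range n, ∑ y ∈ range n, cond (P (x + 1) (y + 1)) 1 0 := by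
  unfold cells
  rw [card_filter, ← univ_product_univ, sum_product, ← Fin.sum_univ_eq_sum_range
    (fun x => ∑ y ∈ range n, cond (P (x + 1) (y + 1)) 1 0) n]
  apply sum_congr rfl
  intro x _
  rw [← Fin.sum_univ_eq_sum_range (fun y => cond (P (x.1 + 1) (y + 1)) 1 0) n]
  apply sum_congr rfl
  intro y _
  cases P (x.1 + 1) (y.1 + 1) <;> simp

theorem card_of_famOK {n0 w R MX MY : ℕ} {L : Fam} (h : famOK n0 w R MX MY L = true) (m : ℕ) :
    5 * (cells (n0 + 5 * m) (gg w m (getC L 0))).card ≤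
      (n0 + 5 * m) * (n0 + 5 * m) + 4 * (n0 + 5 * m) + 400 := by
  unfold famOK at h
  rw [Bool.and_eq_true, Bool.and_eq_true, Bool.and_eq_true] at h
  obtain ⟨hm, -, -, hc⟩ := h
  have h0 : 17 ≤ n0 := (maskOK_of_maskB hm).1
  unfold cardOK at hc
  rw [Bool.and_eq_true, Bool.and_eq_true] at hc
  obtain ⟨c1, c2, c3⟩ := hc
  rw [Nat.ble_eq] at c1 c2 c3
  simp only [sumN_eq] at c1 c2 c3
  set C := getC L 0 with hC
  rw [card_cells]
  have e1 : ∑ x ∈ range (n0 + 5 * m), ∑ y ∈ range (n0 + 5 * m),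
      cond (gg w m C (x + 1) (y + 1)) 1 0 =
      ∑ x ∈ range (n0 + 5 * m), (∑ b ∈ range n0, tb C (tau m (x + 1) + w * (b + 1)) +
        m * ∑ b ∈ range 5, tb C (tau m (x + 1) + w * (7 + b))) := by
    apply sum_congr rfl
    intro x _
    exact tau_sum (fun b => tb C (tau m (x + 1) + w * b)) n0 m h0
  rw [e1, tau_sum (fun a => ∑ b ∈ range n0, tb C (a + w * (b + 1)) +
        m * ∑ b ∈ range 5, tb C (a + w * (7 + b))) n0 m h0]
  simp only [sum_add_distrib, ← mul_sum]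
  set A := ∑ x ∈ range n0, ∑ b ∈ range n0, tb C (x + 1 + w * (b + 1))
  set B1 := ∑ x ∈ range n0, ∑ b ∈ range 5, tb C (x + 1 + w * (7 + b))
  set B2 := ∑ x ∈ range 5, ∑ b ∈ range n0, tb C (7 + x + w * (b + 1))
  set D := ∑ x ∈ range 5, ∑ b ∈ range 5, tb C (7 + x + w * (7 + b))
  have i1 : m * (5 * (B2 + B1)) ≤ m * (10 * n0 + 20) := Nat.mul_le_mul_left _ c2
  have i2 : m * m * (5 * D) ≤ m * m * 25 := Nat.mul_le_mul_left _ c3
  calc 5 * (A + m * B1 + m * (B2 + m * D))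
      = 5 * A + m * (5 * (B2 + B1)) + m * m * (5 * D) := by ring
    _ ≤ (n0 * n0 + 4 * n0 + 400) + m * (10 * n0 + 20) + m * m * 25 :=
        add_le_add (add_le_add c1 i1) i2
    _ = (n0 + 5 * m) * (n0 + 5 * m) + 4 * (n0 + 5 * m) + 400 := by ring

end Pool.Agent.H229R3.ED
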