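import Mathlib

set_option autoImplicit false

namespace Pool.Agent.H229R3.ED

open Finset

/-- The grid graph. -/
abbrev grid (n : ℕ) : SimpleGraph (Fin n × Fin n) :=
  SimpleGraph.boxProd (SimpleGraph.pathGraph n) (SimpleGraph.pathGraph n)

/-- cells of the `n × n` grid (coordinates `1, …, n`) selected by `P` -/
def cells (n : ℕ) (P : ℕ → ℕ → Bool) : Finset (Fin n × Fin n) :=
  univ.filter (fun v => P (v.1.1 + 1) (v.2.1 + 1) = true)

def inR (n : ℕ) (p : ℕ × ℕ) : Prop := 1 ≤ p.1 ∧ p.1 ≤ n ∧ 1 ≤ p.2 ∧ p.2 ≤ n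

instance (n : ℕ) (p : ℕ × ℕ) : Decidable (inR n p) := by unfold inR; infer_instance

def adjN (p q : ℕ × ℕ) : Prop :=
  q = p ∨ (q.2 = p.2 ∧ (q.1 = p.1 + 1 ∨ q.1 + 1 = p.1)) ∨
    (q.1 = p.1 ∧ (q.2 = p.2 + 1 ∨ q.2 + 1 = p.2))

theorem transfer (n : ℕ) (P Q : ℕ → ℕ → Bool) (F G : ℕ × ℕ → ℕ × ℕ)
    (hF : ∀ p, inR n p → P p.1 p.2 = true →
      inR n (F p) ∧ Q (F p).1 (F p).2 = true ∧ G (F p) = p ∧ adjN p (F p))
    (hG : ∀ q, inR n q → Q q.1 q.2 = true →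
      inR n (G q) ∧ P (G q).1 (G q).2 = true ∧ F (G q) = q) :
    ∃ f : Fin n × Fin n → Fin n × Fin n,
      Set.InjOn f (cells n P : Set (Fin n × Fin n)) ∧ (cells n P).image f = cells n Q ∧
      ∀ x ∈ cells n P, f x = x ∨ (grid n).Adj x (f x) := by
  classical
  let e : Fin n × Fin n → ℕ × ℕ := fun v => (v.1.1 + 1, v.2.1 + 1)
  have he : ∀ v, inR n (e v) := fun v => ⟨by simp [e], by simp only [e]; omega,
    by simp [e], by simp only [e]; omega⟩
  have hinj : ∀ u v, e u = e v → u = v := by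
    intro u v h
    simp only [e, Prod.mk.injEq, Nat.add_right_cancel_iff] at h
    exact Prod.ext (Fin.ext h.1) (Fin.ext h.2)
  let g : (p : ℕ × ℕ) → inR n p → Fin n × Fin n := fun p h =>
    (⟨p.1 - 1, by have := h.1; have := h.2.1; omega⟩,
      ⟨p.2 - 1, by have := h.2.2.1; have := h.2.2.2; omega⟩)
  have hg : ∀ p h, e (g p h) = p := by
    intro p h
    obtain ⟨h1, h2, h3, h4⟩ := h
    exact Prod.ext (by simp only [e, g]; omega) (by simp only [e, g]; omega)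
  let f : Fin n × Fin n → Fin n × Fin n := fun v =>
    if h : inR n (F (e v)) then g (F (e v)) h else v
  have hf : ∀ v ∈ cells n P, e (f v) = F (e v) := by
    intro v hv
    have hP : P (e v).1 (e v).2 = true := (mem_filter.mp hv).2
    obtain ⟨h1, -⟩ := hF (e v) (he v) hP
    simp only [f, dif_pos h1]
    exact hg _ h1
  refine ⟨f, ?_, ?_, ?_⟩
  · intro u hu v hv huv
    have hu' : u ∈ cells n P := hu
    have hv' : v ∈ cells n P := hv
    have h1 := hF (e u) (he u) (mem_filter.mp hu').2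
    have h2 := hF (e v) (he v) (mem_filter.mp hv').2
    apply hinj
    rw [← h1.2.2.1, ← h2.2.2.1, ← hf u hu', ← hf v hv', huv]
  · ext q
    rw [mem_image]
    constructor
    · rintro ⟨v, hv, rfl⟩
      have h1 := hF (e v) (he v) (mem_filter.mp hv).2
      refine mem_filter.mpr ⟨mem_univ _, ?_⟩
      have h2 := hf v hv
      have h3 := h1.2.1
      rw [← h2] at h3
      exact h3
    · intro hq
      have h1 := hG (e q) (he q) (mem_filter.mp hq).2
      have hv : g (G (e q)) h1.1 ∈ cells n P := by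
        refine mem_filter.mpr ⟨mem_univ _, ?_⟩
        have h3 := h1.2.1
        rw [← hg (G (e q)) h1.1] at h3
        exact h3
      refine ⟨g (G (e q)) h1.1, hv, ?_⟩
      apply hinj
      rw [hf _ hv, hg _ h1.1, h1.2.2]
  · intro v hv
    have h1 := hF (e v) (he v) (mem_filter.mp hv).2
    have h2 := hf v hv
    have h3 := h1.2.2.2
    rw [← h2] at h3
    rcases h3 with h3 | ⟨h3, h4⟩ | ⟨h3, h4⟩
    · left
      exact hinj _ _ h3
    · right
      simp only [e] at h3 h4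
      rw [SimpleGraph.boxProd_adj]
      left
      refine ⟨?_, Fin.ext (by omega)⟩
      rw [SimpleGraph.pathGraph_adj]
      omega
    · right
      simp only [e] at h3 h4
      rw [SimpleGraph.boxProd_adj]
      right
      refine ⟨?_, Fin.ext (by omega)⟩
      rw [SimpleGraph.pathGraph_adj]
      omega

/-- The abstract local form of a move: `b0` stay, `b1` right, `b2` left, `b3` up, `b4` down. -/
structure Moves (n : ℕ) (P Q b0 b1 b2 b3 b4 : ℕ → ℕ → Bool) : Prop where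
  src : ∀ x y, inR n (x, y) → P x y = true →
    (b0 x y = true ∨ b1 x y = true ∨ b2 x y = true ∨ b3 x y = true ∨ b4 x y = true)
  sub : ∀ x y, x ≤ n + 1 → y ≤ n + 1 →
    (b0 x y = true ∨ b1 x y = true ∨ b2 x y = true ∨ b3 x y = true ∨ b4 x y = true) →
      inR n (x, y) ∧ P x y = true
  d12 : ∀ x y, ¬ (b1 x y = true ∧ b2 x y = true)
  d13 : ∀ x y, ¬ (b1 x y = true ∧ b3 x y = true)
  d14 : ∀ x y, ¬ (b1 x y = true ∧ b4 x y = true)
  d23 : ∀ x y, ¬ (b2 x y = true ∧ b3 x y = true)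
  d24 : ∀ x y, ¬ (b2 x y = true ∧ b4 x y = true)
  d34 : ∀ x y, ¬ (b3 x y = true ∧ b4 x y = true)
  d01 : ∀ x y, ¬ (b0 x y = true ∧ b1 x y = true)
  d02 : ∀ x y, ¬ (b0 x y = true ∧ b2 x y = true)
  d03 : ∀ x y, ¬ (b0 x y = true ∧ b3 x y = true)
  d04 : ∀ x y, ¬ (b0 x y = true ∧ b4 x y = true)
  tgt : ∀ x y, x ≤ n + 1 → y ≤ n + 1 →
    (b0 x y = true ∨ (1 ≤ x ∧ b1 (x - 1) y = true) ∨ (x ≤ n ∧ b2 (x + 1) y = true) ∨
      (1 ≤ y ∧ b3 x (y - 1) = true) ∨ (y ≤ n ∧ b4 x (y + 1) = true)) →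
    inR n (x, y) ∧ Q x y = true
  cov : ∀ x y, inR n (x, y) → Q x y = true →
    (b0 x y = true ∨ b1 (x - 1) y = true ∨ b2 (x + 1) y = true ∨
      b3 x (y - 1) = true ∨ b4 x (y + 1) = true)
  t12 : ∀ x y, inR n (x, y) → ¬ (b1 (x - 1) y = true ∧ b2 (x + 1) y = true)
  t13 : ∀ x y, inR n (x, y) → ¬ (b1 (x - 1) y = true ∧ b3 x (y - 1) = true)
  t14 : ∀ x y, inR n (x, y) → ¬ (b1 (x - 1) y = true ∧ b4 x (y + 1) = true)
  t23 : ∀ x y, inR n (x, y) → ¬ (b2 (x + 1) y = true ∧ b3 x (y - 1) = true)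
  t24 : ∀ x y, inR n (x, y) → ¬ (b2 (x + 1) y = true ∧ b4 x (y + 1) = true)
  t34 : ∀ x y, inR n (x, y) → ¬ (b3 x (y - 1) = true ∧ b4 x (y + 1) = true)
  t01 : ∀ x y, inR n (x, y) → ¬ (b0 x y = true ∧ b1 (x - 1) y = true)
  t02 : ∀ x y, inR n (x, y) → ¬ (b0 x y = true ∧ b2 (x + 1) y = true)
  t03 : ∀ x y, inR n (x, y) → ¬ (b0 x y = true ∧ b3 x (y - 1) = true)
  t04 : ∀ x y, inR n (x, y) → ¬ (b0 x y = true ∧ b4 x (y + 1) = true)

def FF (b1 b2 b3 b4 : ℕ → ℕ → Bool) (p : ℕ × ℕ) : ℕ × ℕ :=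
  if b1 p.1 p.2 = true then (p.1 + 1, p.2) else
  if b2 p.1 p.2 = true then (p.1 - 1, p.2) else
  if b3 p.1 p.2 = true then (p.1, p.2 + 1) else
  if b4 p.1 p.2 = true then (p.1, p.2 - 1) else p

def GG (b1 b2 b3 b4 : ℕ → ℕ → Bool) (p : ℕ × ℕ) : ℕ × ℕ :=
  if b1 (p.1 - 1) p.2 = true then (p.1 - 1, p.2) else
  if b2 (p.1 + 1) p.2 = true then (p.1 + 1, p.2) else
  if b3 p.1 (p.2 - 1) = true then (p.1, p.2 - 1) else
  if b4 p.1 (p.2 + 1) = true then (p.1, p.2 + 1) else p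

theorem Moves.exists_map {n : ℕ} {P Q b0 b1 b2 b3 b4 : ℕ → ℕ → Bool}
    (h : Moves n P Q b0 b1 b2 b3 b4) :
    ∃ f : Fin n × Fin n → Fin n × Fin n,
      Set.InjOn f (cells n P : Set (Fin n × Fin n)) ∧ (cells n P).image f = cells n Q ∧
      ∀ x ∈ cells n P, f x = x ∨ (grid n).Adj x (f x) := by
  refine transfer n P Q (FF b1 b2 b3 b4) (GG b1 b2 b3 b4) ?_ ?_
  · rintro ⟨x, y⟩ hp hP
    obtain ⟨hx1, hx2, hy1, hy2⟩ := hp
    simp only at hx1 hx2 hy1 hy2 hP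
    rcases h.src x y ⟨hx1, hx2, hy1, hy2⟩ hP with h0 | h1 | h2 | h3 | h4
    · have e1 : ¬ b1 x y = true := fun q => h.d01 x y ⟨h0, q⟩
      have e2 : ¬ b2 x y = true := fun q => h.d02 x y ⟨h0, q⟩
      have e3 : ¬ b3 x y = true := fun q => h.d03 x y ⟨h0, q⟩
      have e4 : ¬ b4 x y = true := fun q => h.d04 x y ⟨h0, q⟩
      have hFe : FF b1 b2 b3 b4 (x, y) = (x, y) := by
        simp only [FF, if_neg e1, if_neg e2, if_neg e3, if_neg e4]
      rw [hFe]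
      obtain ⟨hr, hQ⟩ := h.tgt x y (by omega) (by omega) (Or.inl h0)
      refine ⟨hr, hQ, ?_, Or.inl rfl⟩
      have f1 := fun q => h.t01 x y hr ⟨h0, q⟩
      have f2 := fun q => h.t02 x y hr ⟨h0, q⟩
      have f3 := fun q => h.t03 x y hr ⟨h0, q⟩
      have f4 := fun q => h.t04 x y hr ⟨h0, q⟩
      simp only [GG, if_neg f1, if_neg f2, if_neg f3, if_neg f4]
    · have hFe : FF b1 b2 b3 b4 (x, y) = (x + 1, y) := by
        simp only [FF, if_pos h1]
      rw [hFe]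
      obtain ⟨hr, hQ⟩ := h.tgt (x + 1) y (by omega) (by omega)
        (Or.inr (Or.inl ⟨by omega, by rw [Nat.add_sub_cancel]; exact h1⟩))
      refine ⟨hr, hQ, ?_, Or.inr (Or.inl ⟨rfl, Or.inl rfl⟩)⟩
      simp only [GG, Nat.add_sub_cancel, if_pos h1]
    · have e1 : ¬ b1 x y = true := fun q => h.d12 x y ⟨q, h2⟩
      have hFe : FF b1 b2 b3 b4 (x, y) = (x - 1, y) := by
        simp only [FF, if_neg e1, if_pos h2]
      rw [hFe]
      have h2' : b2 (x - 1 + 1) y = true := by rw [Nat.sub_add_cancel hx1]; exact h2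
      obtain ⟨hr, hQ⟩ := h.tgt (x - 1) y (by omega) (by omega)
        (Or.inr (Or.inr (Or.inl ⟨by omega, h2'⟩)))
      refine ⟨hr, hQ, ?_, Or.inr (Or.inl ⟨rfl, Or.inr (Nat.sub_add_cancel hx1)⟩)⟩
      have f1 := fun q => h.t12 (x - 1) y hr ⟨q, h2'⟩
      simp only [GG, if_neg f1, Nat.sub_add_cancel hx1, if_pos h2]
    · have e1 : ¬ b1 x y = true := fun q => h.d13 x y ⟨q, h3⟩
      have e2 : ¬ b2 x y = true := fun q => h.d23 x y ⟨q, h3⟩
      have hFe : FF b1 b2 b3 b4 (x, y) = (x, y + 1) := by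
        simp only [FF, if_neg e1, if_neg e2, if_pos h3]
      rw [hFe]
      have h3' : b3 x (y + 1 - 1) = true := by rw [Nat.add_sub_cancel]; exact h3
      obtain ⟨hr, hQ⟩ := h.tgt x (y + 1) (by omega) (by omega)
        (Or.inr (Or.inr (Or.inr (Or.inl ⟨by omega, h3'⟩))))
      refine ⟨hr, hQ, ?_, Or.inr (Or.inr ⟨rfl, Or.inl rfl⟩)⟩
      have f1 := fun q => h.t13 x (y + 1) hr ⟨q, h3'⟩
      have f2 := fun q => h.t23 x (y + 1) hr ⟨q, h3'⟩
      simp only [GG, if_neg f1, if_neg f2, Nat.add_sub_cancel, if_pos h3]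
    · have e1 : ¬ b1 x y = true := fun q => h.d14 x y ⟨q, h4⟩
      have e2 : ¬ b2 x y = true := fun q => h.d24 x y ⟨q, h4⟩
      have e3 : ¬ b3 x y = true := fun q => h.d34 x y ⟨q, h4⟩
      have hFe : FF b1 b2 b3 b4 (x, y) = (x, y - 1) := by
        simp only [FF, if_neg e1, if_neg e2, if_neg e3, if_pos h4]
      rw [hFe]
      have h4' : b4 x (y - 1 + 1) = true := by rw [Nat.sub_add_cancel hy1]; exact h4
      obtain ⟨hr, hQ⟩ := h.tgt x (y - 1) (by omega) (by omega)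
        (Or.inr (Or.inr (Or.inr (Or.inr ⟨by omega, h4'⟩))))
      refine ⟨hr, hQ, ?_, Or.inr (Or.inr ⟨rfl, Or.inr (Nat.sub_add_cancel hy1)⟩)⟩
      have f1 := fun q => h.t14 x (y - 1) hr ⟨q, h4'⟩
      have f2 := fun q => h.t24 x (y - 1) hr ⟨q, h4'⟩
      have f3 := fun q => h.t34 x (y - 1) hr ⟨q, h4'⟩
      simp only [GG, if_neg f1, if_neg f2, if_neg f3, Nat.sub_add_cancel hy1, if_pos h4]
  · rintro ⟨x, y⟩ hq hQ
    have hq0 : inR n (x, y) := hq
    obtain ⟨hx1, hx2, hy1, hy2⟩ := hq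
    simp only at hx1 hx2 hy1 hy2 hQ
    rcases h.cov x y hq0 hQ with h0 | h1 | h2 | h3 | h4
    · have f1 := fun q => h.t01 x y hq0 ⟨h0, q⟩
      have f2 := fun q => h.t02 x y hq0 ⟨h0, q⟩
      have f3 := fun q => h.t03 x y hq0 ⟨h0, q⟩
      have f4 := fun q => h.t04 x y hq0 ⟨h0, q⟩
      have hGe : GG b1 b2 b3 b4 (x, y) = (x, y) := by
        simp only [GG, if_neg f1, if_neg f2, if_neg f3, if_neg f4]
      rw [hGe]
      have e1 : ¬ b1 x y = true := fun q => h.d01 x y ⟨h0, q⟩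
      have e2 : ¬ b2 x y = true := fun q => h.d02 x y ⟨h0, q⟩
      have e3 : ¬ b3 x y = true := fun q => h.d03 x y ⟨h0, q⟩
      have e4 : ¬ b4 x y = true := fun q => h.d04 x y ⟨h0, q⟩
      refine ⟨hq0, (h.sub x y (by omega) (by omega) (Or.inl h0)).2, ?_⟩
      simp only [FF, if_neg e1, if_neg e2, if_neg e3, if_neg e4]
    · have hGe : GG b1 b2 b3 b4 (x, y) = (x - 1, y) := by
        simp only [GG, if_pos h1]
      rw [hGe]
      obtain ⟨hr, hP⟩ := h.sub (x - 1) y (by omega) (by omega) (Or.inr (Or.inl h1))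
      refine ⟨hr, hP, ?_⟩
      simp only [FF, if_pos h1, Nat.sub_add_cancel hx1]
    · have f1 := fun q => h.t12 x y hq0 ⟨q, h2⟩
      have hGe : GG b1 b2 b3 b4 (x, y) = (x + 1, y) := by
        simp only [GG, if_neg f1, if_pos h2]
      rw [hGe]
      obtain ⟨hr, hP⟩ := h.sub (x + 1) y (by omega) (by omega) (Or.inr (Or.inr (Or.inl h2)))
      have e1 : ¬ b1 (x + 1) y = true := fun q => h.d12 (x + 1) y ⟨q, h2⟩
      refine ⟨hr, hP, ?_⟩
      simp only [FF, if_neg e1, if_pos h2, Nat.add_sub_cancel]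
    · have f1 := fun q => h.t13 x y hq0 ⟨q, h3⟩
      have f2 := fun q => h.t23 x y hq0 ⟨q, h3⟩
      have hGe : GG b1 b2 b3 b4 (x, y) = (x, y - 1) := by
        simp only [GG, if_neg f1, if_neg f2, if_pos h3]
      rw [hGe]
      obtain ⟨hr, hP⟩ := h.sub x (y - 1) (by omega) (by omega) (Or.inr (Or.inr (Or.inr (Or.inl h3))))
      have e1 : ¬ b1 x (y - 1) = true := fun q => h.d13 x (y - 1) ⟨q, h3⟩
      have e2 : ¬ b2 x (y - 1) = true := fun q => h.d23 x (y - 1) ⟨q, h3⟩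
      refine ⟨hr, hP, ?_⟩
      simp only [FF, if_neg e1, if_neg e2, if_pos h3, Nat.sub_add_cancel hy1]
    · have f1 := fun q => h.t14 x y hq0 ⟨q, h4⟩
      have f2 := fun q => h.t24 x y hq0 ⟨q, h4⟩
      have f3 := fun q => h.t34 x y hq0 ⟨q, h4⟩
      have hGe : GG b1 b2 b3 b4 (x, y) = (x, y + 1) := by
        simp only [GG, if_neg f1, if_neg f2, if_neg f3, if_pos h4]
      rw [hGe]
      obtain ⟨hr, hP⟩ := h.sub x (y + 1) (by omega) (by omega) (Or.inr (Or.inr (Or.inr (Or.inr h4))))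
      have e1 : ¬ b1 x (y + 1) = true := fun q => h.d14 x (y + 1) ⟨q, h4⟩
      have e2 : ¬ b2 x (y + 1) = true := fun q => h.d24 x (y + 1) ⟨q, h4⟩
      have e3 : ¬ b3 x (y + 1) = true := fun q => h.d34 x (y + 1) ⟨q, h4⟩
      refine ⟨hr, hP, ?_⟩
      simp only [FF, if_neg e1, if_neg e2, if_neg e3, if_pos h4, Nat.add_sub_cancel]

end Pool.Agent.H229R3.ED
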