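import Pool.Agent.H229R3.ED.Band

set_option autoImplicit false

namespace Pool.Agent.H229R3.ED

open T Finset

/-- the cell `(x, y)` is guarded or has a guarded neighbour -/
def Dom (d : ℕ → ℕ → Bool) (x y : ℕ) : Prop :=
  d x y = true ∨ d (x - 1) y = true ∨ d (x + 1) y = true ∨ d x (y - 1) = true ∨ d x (y + 1) = true

theorem valid_of_dom (d : ℕ → ℕ → Bool) (x y : ℕ) (h : Dom d (x + 1) y)
    (hf : fin3 (d x) (d (x + 1)) y = 2) : d (x + 2) y = true := by
  unfold Dom at h
  rw [Nat.add_sub_cancel] at h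
  unfold fin3 at hf
  by_cases h1 : d (x + 1) y = true
  · rw [if_pos h1] at hf
    exact absurd hf (by norm_num)
  · rw [if_neg h1] at hf
    by_cases h2 : (d x y || (d (x + 1) (y - 1) || d (x + 1) (y + 1))) = true
    · rw [if_pos h2] at hf
      exact absurd hf (by norm_num)
    · rcases h with h | h | h | h | h
      · exact absurd h h1
      · exact absurd (by simp [h]) h2
      · exact h
      · exact absurd (by simp [h]) h2
      · exact absurd (by simp [h]) h2

theorem cst_le (g : ℕ → Bool) : ∀ n y, cst g y n ≤ 5 * n + 1 := by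
  intro n
  induction n with
  | zero => intro y; unfold cst; split_ifs <;> omega
  | succ n ih =>
    intro y
    have := ih (y + 1)
    have h2 : lc n ≤ 5 := by rcases n with _ | n <;> simp [lc]
    unfold cst
    split_ifs <;> omega

theorem colw_le (g : ℕ → Bool) : colw g ≤ 51 := by
  have := cst_le g 9 2
  unfold colw
  split_ifs <;> omega

theorem band (d : ℕ → ℕ → Bool) (M : ℕ) (h0 : ∀ x, d x 0 = false)
    (hdom : ∀ x y, 9 ≤ x → x < 11 + M → 1 ≤ y → y ≤ 10 → Dom d x y) :
    11 * M ≤ 91 + ∑ i ∈ range M, colw (d (11 + i)) := by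
  have key : ∀ m, m ≤ M → ∃ u, ub phi (lst (fin3 (d (9 + m)) (d (10 + m))) 1 10) u ∧
      u + 11 * m ≤ 91 + ∑ i ∈ range m, colw (d (11 + i)) := by
    intro m
    induction m with
    | zero =>
      intro _
      have h1 : ub (T.leaf 0) (lst (fin3 (d 8) (d 9)) 1 10) 0 := by simp [ub]
      have h2 := step_spec (d 8) (d 9) (d 10) (T.leaf 0) 0 (h0 10)
        (fun i hi1 hi2 hf => valid_of_dom d 8 i (hdom 9 i (by omega) (by omega) hi1 hi2) hf) h1
      obtain ⟨u, hu1, hu2⟩ := chk_spec 0 40 phi _ phi_init _ _ h2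
      refine ⟨u, hu1, ?_⟩
      have := colw_le (d 10)
      rw [range_zero, sum_empty]
      omega
    | succ m ih =>
      intro hm
      obtain ⟨u, hu1, hu2⟩ := ih (by omega)
      have h2 := step_spec (d (9 + m)) (d (10 + m)) (d (11 + m)) phi u (h0 (11 + m))
        (fun i hi1 hi2 hf => by
          have := valid_of_dom d (9 + m) i
            (by
              have := hdom (10 + m) i (by omega) (by omega) hi1 hi2
              rwa [show 9 + m + 1 = 10 + m by omega])
            (by rwa [show 9 + m + 1 = 10 + m by omega])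
          rwa [show 9 + m + 2 = 11 + m by omega] at this) hu1
      obtain ⟨u', hu1', hu2'⟩ := chk_spec 11 0 phi _ phi_step _ _ h2
      refine ⟨u', ?_, ?_⟩
      · rw [show 9 + (m + 1) = 10 + m by omega, show 10 + (m + 1) = 11 + m by omega]
        exact hu1'
      · rw [sum_range_succ]
        omega
  obtain ⟨u, _, hu⟩ := key M le_rfl
  omega

/-- row weights -/
def be (y : ℕ) : ℕ := if y = 0 then 0 else if y ≤ 9 then 5 else if y = 10 then 4 else
  if y = 11 then 1 else 0

def al (n x : ℕ) : ℕ := if 11 ≤ x ∧ x + 10 ≤ n then 1 else 0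

def ind (b : Bool) : ℕ := if b = true then 1 else 0

theorem colw_eq (g : ℕ → Bool) (n : ℕ) (hn : 40 ≤ n) :
    colw g = ∑ y ∈ range (n + 2), ind (g y) * be y := by
  have h1 : ∑ y ∈ range (n + 2), ind (g y) * be y = ∑ y ∈ range 12, ind (g y) * be y := by
    symm
    apply sum_subset
    · intro x hx
      simp only [mem_range] at *
      omega
    · intro x _ hx
      simp only [mem_range, not_lt] at hx
      have : be x = 0 := by
        unfold be
        split_ifs <;> omega
      simp [this]
  rw [h1]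
  have hk : ∀ (y k : ℕ), (if g y = true then k else 0) = ind (g y) * k := by
    intro y k
    unfold ind
    split_ifs <;> simp
  simp only [sum_range_succ, sum_range_zero, colw, cst, lc, hk]
  norm_num [be]
  ring

theorem shiftR (f g : ℕ → ℕ) (k : ℕ) (h0 : f 0 = 0) (hk : f k = 0) :
    ∑ x ∈ range (k + 1), f x * g (x + 1) = ∑ x ∈ range (k + 1), f (x - 1) * g x := by
  rw [sum_range_succ, sum_range_succ']
  simp [h0, hk]

theorem shiftL (f g : ℕ → ℕ) (k : ℕ) (h0 : f 0 = 0) (hk : f (k + 1) = 0) :
    ∑ x ∈ range (k + 1), f x * g (x - 1) = ∑ x ∈ range (k + 1), f (x + 1) * g x := by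
  rw [sum_range_succ', sum_range_succ]
  simp [h0, hk]

theorem al_cases (n x : ℕ) (hn : 40 ≤ n) (h1 : 1 ≤ x) (h2 : x ≤ n) :
    (al n x = 0 ∧ (be x + be (n + 1 - x)) + (al n (x + 1) + al n (x - 1)) = 5) ∨
    (al n x = 1 ∧ (be x + be (n + 1 - x)) + (al n (x + 1) + al n (x - 1)) = 2) := by
  unfold al be
  split_ifs <;> omega

end Pool.Agent.H229R3.ED
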