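import Pool.Agent.H229R3.ED.Lower

set_option autoImplicit false

namespace Pool.Agent.H229R3.ED

open Finset

theorem al_sum (n : ℕ) (hn : 40 ≤ n) (f : ℕ → ℕ) :
    ∑ x ∈ range (n + 2), al n x * f x = ∑ i ∈ range (n - 20), f (11 + i) := by
  have h1 : ∑ x ∈ Ico 11 (n - 9), f x = ∑ i ∈ range (n - 9 - 11), f (11 + i) :=
    sum_Ico_eq_sum_range f 11 (n - 9)
  rw [show n - 9 - 11 = n - 20 by omega] at h1
  rw [← h1]
  symm
  have h2 : ∑ x ∈ Ico 11 (n - 9), f x = ∑ x ∈ Ico 11 (n - 9), al n x * f x := by
    apply sum_congr rfl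
    intro x hx
    rw [mem_Ico] at hx
    have : al n x = 1 := by unfold al; rw [if_pos]; omega
    rw [this, one_mul]
  rw [h2]
  apply sum_subset
  · intro x hx
    simp only [mem_range, mem_Ico] at *
    omega
  · intro x _ hx
    rw [mem_Ico] at hx
    have : al n x = 0 := by unfold al; rw [if_neg]; omega
    rw [this, zero_mul]

theorem side (n : ℕ) (hn : 40 ≤ n) (e : ℕ → ℕ → Bool) (h0 : ∀ x, e x 0 = false)
    (hdom : ∀ x y, 1 ≤ x → x ≤ n → 1 ≤ y → y ≤ 10 → Dom e x y) :
    11 * (n - 20) ≤ 91 + ∑ x ∈ range (n + 2), ∑ y ∈ range (n + 2),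
      ind (e x y) * (al n x * be y) := by
  have h1 := band e (n - 20) h0 (fun x y hx hx2 hy hy2 => hdom x y (by omega) (by omega) hy hy2)
  rw [← al_sum n hn (fun x => colw (e x))] at h1
  refine le_trans h1 (le_of_eq ?_)
  congr 1
  apply sum_congr rfl
  intro x _
  rw [colw_eq (e x) n hn, mul_sum]
  apply sum_congr rfl
  intro y _
  ring

theorem interior (n : ℕ) (hn : 40 ≤ n) (d : ℕ → ℕ → Bool)
    (hdom : ∀ x y, 1 ≤ x → x ≤ n → 1 ≤ y → y ≤ n → Dom d x y) :
    (n - 20) * (n - 20) ≤ ∑ x ∈ range (n + 2), ∑ y ∈ range (n + 2), ind (d x y) *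
      (al n x * al n y + al n (x - 1) * al n y + al n (x + 1) * al n y
        + al n x * al n (y - 1) + al n x * al n (y + 1)) := by
  have hA0 : al n 0 = 0 := by unfold al; rw [if_neg]; omega
  have hA1 : al n (n + 1) = 0 := by unfold al; rw [if_neg]; omega
  have hA2 : al n (n + 1 + 1) = 0 := by unfold al; rw [if_neg]; omega
  -- count of interior cells
  have hc : ∑ x ∈ range (n + 2), ∑ y ∈ range (n + 2), al n x * al n y = (n - 20) * (n - 20) := by
    have h1 : ∑ y ∈ range (n + 2), al n y = n - 20 := by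
      have := al_sum n hn (fun _ => 1)
      simpa using this
    calc ∑ x ∈ range (n + 2), ∑ y ∈ range (n + 2), al n x * al n y
        = ∑ x ∈ range (n + 2), al n x * (n - 20) := by
          apply sum_congr rfl
          intro x _
          rw [← mul_sum, h1]
      _ = (n - 20) * (n - 20) := by rw [← sum_mul, h1]
  rw [← hc]
  have hstep : ∑ x ∈ range (n + 2), ∑ y ∈ range (n + 2), al n x * al n y ≤
      ∑ x ∈ range (n + 2), ∑ y ∈ range (n + 2), al n x * al n y *
        (ind (d x y) + ind (d (x + 1) y) + ind (d (x - 1) y) + ind (d x (y + 1))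
          + ind (d x (y - 1))) := by
    apply sum_le_sum
    intro x _
    apply sum_le_sum
    intro y _
    by_cases hxy : (11 ≤ x ∧ x + 10 ≤ n) ∧ (11 ≤ y ∧ y + 10 ≤ n)
    · have h := hdom x y (by omega) (by omega) (by omega) (by omega)
      have : 1 ≤ ind (d x y) + ind (d (x + 1) y) + ind (d (x - 1) y) + ind (d x (y + 1))
          + ind (d x (y - 1)) := by
        unfold Dom at h
        unfold ind
        rcases h with h | h | h | h | h <;> rw [if_pos h] <;> omega
      exact Nat.le_mul_of_pos_right _ this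
    · have : al n x * al n y = 0 := by
        unfold al
        rw [not_and_or] at hxy
        rcases hxy with h | h
        · rw [if_neg h, zero_mul]
        · rw [if_neg h, mul_zero]
      rw [this]
      exact Nat.zero_le _
  refine le_trans hstep (le_of_eq ?_)
  have e1 : ∑ x ∈ range (n + 2), ∑ y ∈ range (n + 2), al n x * al n y * ind (d (x + 1) y)
      = ∑ x ∈ range (n + 2), ∑ y ∈ range (n + 2), al n (x - 1) * al n y * ind (d x y) := by
    have := shiftR (al n) (fun x => ∑ y ∈ range (n + 2), al n y * ind (d x y)) (n + 1) hA0 hA1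
    simp only [mul_sum] at this
    calc _ = _ := by
          apply sum_congr rfl; intro x _; apply sum_congr rfl; intro y _; exact mul_assoc _ _ _
      _ = _ := this
      _ = _ := by
          apply sum_congr rfl; intro x _; apply sum_congr rfl; intro y _
          exact (mul_assoc _ _ _).symm
  have e2 : ∑ x ∈ range (n + 2), ∑ y ∈ range (n + 2), al n x * al n y * ind (d (x - 1) y)
      = ∑ x ∈ range (n + 2), ∑ y ∈ range (n + 2), al n (x + 1) * al n y * ind (d x y) := by
    have := shiftL (al n) (fun x => ∑ y ∈ range (n + 2), al n y * ind (d x y)) (n + 1) hA0 hA2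
    simp only [mul_sum] at this
    calc _ = _ := by
          apply sum_congr rfl; intro x _; apply sum_congr rfl; intro y _; exact mul_assoc _ _ _
      _ = _ := this
      _ = _ := by
          apply sum_congr rfl; intro x _; apply sum_congr rfl; intro y _
          exact (mul_assoc _ _ _).symm
  have e3 : ∑ x ∈ range (n + 2), ∑ y ∈ range (n + 2), al n x * al n y * ind (d x (y + 1))
      = ∑ x ∈ range (n + 2), ∑ y ∈ range (n + 2), al n x * al n (y - 1) * ind (d x y) := by
    apply sum_congr rfl
    intro x _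
    have := shiftR (al n) (fun y => al n x * ind (d x y)) (n + 1) hA0 hA1
    calc _ = _ := by
          apply sum_congr rfl; intro y _
          show al n x * al n y * ind (d x (y + 1)) = al n y * (al n x * ind (d x (y + 1))); ring
      _ = _ := this
      _ = _ := by
          apply sum_congr rfl; intro y _; ring
  have e4 : ∑ x ∈ range (n + 2), ∑ y ∈ range (n + 2), al n x * al n y * ind (d x (y - 1))
      = ∑ x ∈ range (n + 2), ∑ y ∈ range (n + 2), al n x * al n (y + 1) * ind (d x y) := by
    apply sum_congr rfl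
    intro x _
    have := shiftL (al n) (fun y => al n x * ind (d x y)) (n + 1) hA0 hA2
    calc _ = _ := by
          apply sum_congr rfl; intro y _
          show al n x * al n y * ind (d x (y - 1)) = al n y * (al n x * ind (d x (y - 1))); ring
      _ = _ := this
      _ = _ := by
          apply sum_congr rfl; intro y _; ring
  simp only [mul_add, sum_add_distrib]
  rw [e1, e2, e3, e4]
  have c : ∀ a b i : ℕ, a * b * i = i * (a * b) := by intro a b i; ring
  simp only [c]

theorem total (n : ℕ) (hn : 40 ≤ n) (d : ℕ → ℕ → Bool)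
    (hz : ∀ x y, d x y = true → 1 ≤ x ∧ x ≤ n ∧ 1 ≤ y ∧ y ≤ n)
    (hdom : ∀ x y, 1 ≤ x → x ≤ n → 1 ≤ y → y ≤ n → Dom d x y) :
    n * n + 4 * n ≤ 5 * (∑ x ∈ range (n + 2), ∑ y ∈ range (n + 2), ind (d x y)) + 844 := by
  have hz' : ∀ x y, ¬ (1 ≤ x ∧ x ≤ n ∧ 1 ≤ y ∧ y ≤ n) → d x y = false := by
    intro x y h
    rcases hb : d x y with _ | _
    · rfl
    · exact absurd (hz x y hb) h
  -- bottom
  have hB := side n hn d (fun x => hz' x 0 (by omega))
    (fun x y a b c e => hdom x y a b c (by omega))
  -- left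
  have hL := side n hn (fun x y => d y x) (fun x => hz' 0 x (by omega))
    (fun x y a b c e => by
      have := hdom y x c (by omega) a b
      unfold Dom at this ⊢
      tauto)
  -- top
  have hT := side n hn (fun x y => d x (n + 1 - y)) (fun x => hz' x (n + 1) (by omega))
    (fun x y a b c e => by
      have := hdom x (n + 1 - y) a b (by omega) (by omega)
      unfold Dom at this ⊢
      rw [show n + 1 - y - 1 = n + 1 - (y + 1) by omega,
        show n + 1 - y + 1 = n + 1 - (y - 1) by omega] at this
      tauto)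
  -- right
  have hR := side n hn (fun x y => d (n + 1 - y) x) (fun x => hz' (n + 1) x (by omega))
    (fun x y a b c e => by
      have := hdom (n + 1 - y) x (by omega) (by omega) a b
      unfold Dom at this ⊢
      rw [show n + 1 - y - 1 = n + 1 - (y + 1) by omega,
        show n + 1 - y + 1 = n + 1 - (y - 1) by omega] at this
      tauto)
  have hI := interior n hn d hdom
  -- rewrite the four side sums
  have hL' : ∑ x ∈ range (n + 2), ∑ y ∈ range (n + 2), ind (d y x) * (al n x * be y)
      = ∑ x ∈ range (n + 2), ∑ y ∈ range (n + 2), ind (d x y) * (al n y * be x) := sum_comm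
  have hT' : ∑ x ∈ range (n + 2), ∑ y ∈ range (n + 2), ind (d x (n + 1 - y)) * (al n x * be y)
      = ∑ x ∈ range (n + 2), ∑ y ∈ range (n + 2), ind (d x y) * (al n x * be (n + 1 - y)) := by
    apply sum_congr rfl
    intro x _
    rw [← sum_range_reflect]
    apply sum_congr rfl
    intro y hy
    rw [mem_range] at hy
    rw [show n + 2 - 1 - y = n + 1 - y by omega, show n + 1 - (n + 1 - y) = y by omega]
  have hR' : ∑ x ∈ range (n + 2), ∑ y ∈ range (n + 2), ind (d (n + 1 - y) x) * (al n x * be y)
      = ∑ x ∈ range (n + 2), ∑ y ∈ range (n + 2), ind (d x y) * (al n y * be (n + 1 - x)) := by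
    rw [sum_comm, ← sum_range_reflect]
    apply sum_congr rfl
    intro x hx
    rw [mem_range] at hx
    apply sum_congr rfl
    intro y _
    rw [show n + 2 - 1 - x = n + 1 - x by omega, show n + 1 - (n + 1 - x) = x by omega]
  rw [hL'] at hL
  rw [hT'] at hT
  rw [hR'] at hR
  -- pointwise bound
  have hW : (∑ x ∈ range (n + 2), ∑ y ∈ range (n + 2), ind (d x y) * (al n x * be y))
      + (∑ x ∈ range (n + 2), ∑ y ∈ range (n + 2), ind (d x y) * (al n y * be x))
      + (∑ x ∈ range (n + 2), ∑ y ∈ range (n + 2), ind (d x y) * (al n x * be (n + 1 - y)))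
      + (∑ x ∈ range (n + 2), ∑ y ∈ range (n + 2), ind (d x y) * (al n y * be (n + 1 - x)))
      + (∑ x ∈ range (n + 2), ∑ y ∈ range (n + 2), ind (d x y) *
      (al n x * al n y + al n (x - 1) * al n y + al n (x + 1) * al n y
        + al n x * al n (y - 1) + al n x * al n (y + 1)))
      ≤ 5 * (∑ x ∈ range (n + 2), ∑ y ∈ range (n + 2), ind (d x y)) := by
    rw [mul_sum]
    simp only [← sum_add_distrib]
    apply sum_le_sum
    intro x _
    rw [mul_sum]
    apply sum_le_sum
    intro y _
    rcases hb : d x y with _ | _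
    · simp [ind]
    · obtain ⟨a1, a2, a3, a4⟩ := hz x y hb
      have hx := al_cases n x hn a1 a2
      have hy := al_cases n y hn a3 a4
      simp only [ind, if_true, one_mul]
      rcases hx with ⟨hx1, hx2⟩ | ⟨hx1, hx2⟩ <;> rcases hy with ⟨hy1, hy2⟩ | ⟨hy1, hy2⟩ <;>
        rw [hx1, hy1] <;> omega
  have hq : (n - 20) * (n - 20) + 40 * n = n * n + 400 := by
    obtain ⟨k, rfl⟩ : ∃ k, n = k + 20 := ⟨n - 20, by omega⟩
    rw [Nat.add_sub_cancel]
    ring
  omega

end Pool.Agent.H229R3.ED
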