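import Pool.Agent.H229R3.ED.Lower2
import Pool.Agent.H229R3.ED.Fam17
import Pool.Agent.H229R3.ED.Fam18
import Pool.Agent.H229R3.ED.Fam19
import Pool.Agent.H229R3.ED.Fam20
import Pool.Agent.H229R3.ED.Fam21

set_option autoImplicit false

namespace Pool.Agent.H229R3.ED

open Finset

/-- For all large `n` there is an eternal family with at most `(n² + 4n + 400) / 5` guards. -/
theorem upper (n : ℕ) (hn : 40 ≤ n) : ∃ k, Eternal n k ∧ 5 * k ≤ n * n + 4 * n + 400 := by
  have h5 : n % 5 = 0 ∨ n % 5 = 1 ∨ n % 5 = 2 ∨ n % 5 = 3 ∨ n % 5 = 4 := by omega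
  rcases h5 with h | h | h | h | h
  · obtain ⟨m, rfl⟩ : ∃ m, n = 20 + 5 * m := ⟨(n - 20) / 5, by omega⟩
    exact ⟨_, eternal_of_famOK fam20_ok m, card_of_famOK fam20_ok m⟩
  · obtain ⟨m, rfl⟩ : ∃ m, n = 21 + 5 * m := ⟨(n - 21) / 5, by omega⟩
    exact ⟨_, eternal_of_famOK fam21_ok m, card_of_famOK fam21_ok m⟩
  · obtain ⟨m, rfl⟩ : ∃ m, n = 17 + 5 * m := ⟨(n - 17) / 5, by omega⟩
    exact ⟨_, eternal_of_famOK fam17_ok m, card_of_famOK fam17_ok m⟩
  · obtain ⟨m, rfl⟩ : ∃ m, n = 18 + 5 * m := ⟨(n - 18) / 5, by omega⟩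
    exact ⟨_, eternal_of_famOK fam18_ok m, card_of_famOK fam18_ok m⟩
  · obtain ⟨m, rfl⟩ : ∃ m, n = 19 + 5 * m := ⟨(n - 19) / 5, by omega⟩
    exact ⟨_, eternal_of_famOK fam19_ok m, card_of_famOK fam19_ok m⟩

/-- Every dominating set of the `n × n` grid has at least `(n² + 4n - 844) / 5` vertices. -/
theorem lower (n : ℕ) (hn : 40 ≤ n) (D : Finset (Fin n × Fin n))
    (hD : ∀ v : Fin n × Fin n, v ∈ D ∨ ∃ u ∈ D, (grid n).Adj u v) :
    n * n + 4 * n ≤ 5 * D.card + 844 := by
  classical
  let d : ℕ → ℕ → Bool := fun x y => decide (∃ v ∈ D, v.1.1 + 1 = x ∧ v.2.1 + 1 = y)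
  have hd : ∀ x y, d x y = true ↔ ∃ v ∈ D, v.1.1 + 1 = x ∧ v.2.1 + 1 = y := by
    intro x y
    exact decide_eq_true_iff
  have h1 := total n hn d
    (fun x y h => by
      obtain ⟨v, _, hx, hy⟩ := (hd x y).mp h
      have := v.1.2
      have := v.2.2
      omega)
    (fun x y hx1 hx2 hy1 hy2 => by
      have hv := hD (⟨x - 1, by omega⟩, ⟨y - 1, by omega⟩)
      unfold Dom
      simp only [hd]
      rcases hv with hv | ⟨u, hu, huv⟩
      · left
        exact ⟨_, hv, by simp only; omega, by simp only; omega⟩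
      · rw [SimpleGraph.boxProd_adj] at huv
        rcases huv with ⟨h, h'⟩ | ⟨h, h'⟩
        · rw [SimpleGraph.pathGraph_adj] at h
          simp only at h h'
          have h'' : u.2.1 = y - 1 := by rw [h']
          rcases h with h | h
          · right; left
            exact ⟨u, hu, by omega, by omega⟩
          · right; right; left
            exact ⟨u, hu, by omega, by omega⟩
        · rw [SimpleGraph.pathGraph_adj] at h
          simp only at h h'
          have h'' : u.1.1 = x - 1 := by rw [h']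
          rcases h with h | h
          · right; right; right; left
            exact ⟨u, hu, by omega, by omega⟩
          · right; right; right; right
            exact ⟨u, hu, by omega, by omega⟩)
  have h2 : ∑ x ∈ range (n + 2), ∑ y ∈ range (n + 2), ind (d x y) ≤ D.card := by
    have h3 : ∑ x ∈ range (n + 2), ∑ y ∈ range (n + 2), ind (d x y) =
        ((range (n + 2) ×ˢ range (n + 2)).filter (fun p => d p.1 p.2 = true)).card := by
      rw [card_filter, sum_product]
      rfl
    rw [h3]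
    refine le_trans (card_le_card (t := D.image (fun v => (v.1.1 + 1, v.2.1 + 1))) ?_)
      card_image_le
    intro p hp
    obtain ⟨v, hv, hx, hy⟩ := (hd _ _).mp (mem_filter.mp hp).2
    exact mem_image.mpr ⟨v, hv, Prod.ext hx hy⟩
  omega

theorem main :
    ∃ c : ℕ, ∀ n : ℕ,
      sInf {k : ℕ | ∃ F : Set (Finset (Fin n × Fin n)), F.Nonempty ∧
          (∀ D ∈ F, D.card = k) ∧
          ∀ D ∈ F, ∀ v : Fin n × Fin n, ∃ D' ∈ F, v ∈ D' ∧
            ∃ f : Fin n × Fin n → Fin n × Fin n,
              Set.InjOn f (D : Set (Fin n × Fin n)) ∧ D.image f = D' ∧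
              ∀ x ∈ D, f x = x ∨
                (SimpleGraph.boxProd (SimpleGraph.pathGraph n)
                  (SimpleGraph.pathGraph n)).Adj x (f x)}
        ≤ sInf {k : ℕ | ∃ D : Finset (Fin n × Fin n), D.card = k ∧
            ∀ v : Fin n × Fin n, v ∈ D ∨ ∃ u ∈ D,
              (SimpleGraph.boxProd (SimpleGraph.pathGraph n)
                (SimpleGraph.pathGraph n)).Adj u v} + c := by
  refine ⟨1600, fun n => ?_⟩
  rcases Nat.lt_or_ge n 40 with hn | hn
  · -- small grids: all vertices guarded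
    have h1 : sInf {k : ℕ | ∃ F : Set (Finset (Fin n × Fin n)), F.Nonempty ∧
          (∀ D ∈ F, D.card = k) ∧
          ∀ D ∈ F, ∀ v : Fin n × Fin n, ∃ D' ∈ F, v ∈ D' ∧
            ∃ f : Fin n × Fin n → Fin n × Fin n,
              Set.InjOn f (D : Set (Fin n × Fin n)) ∧ D.image f = D' ∧
              ∀ x ∈ D, f x = x ∨
                (SimpleGraph.boxProd (SimpleGraph.pathGraph n)
                  (SimpleGraph.pathGraph n)).Adj x (f x)} ≤ n * n := by
      apply Nat.sInf_le
      refine ⟨{univ}, ⟨univ, rfl⟩, ?_, ?_⟩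
      · rintro D rfl
        simp
      · rintro D rfl v
        exact ⟨univ, rfl, mem_univ _, id, Set.injOn_id _, image_id, fun x _ => Or.inl rfl⟩
    have h2 : n * n ≤ 1600 := by nlinarith
    omega
  · obtain ⟨k, hk, hk2⟩ := upper n hn
    have h1 : sInf {k : ℕ | ∃ F : Set (Finset (Fin n × Fin n)), F.Nonempty ∧
          (∀ D ∈ F, D.card = k) ∧
          ∀ D ∈ F, ∀ v : Fin n × Fin n, ∃ D' ∈ F, v ∈ D' ∧
            ∃ f : Fin n × Fin n → Fin n × Fin n,
              Set.InjOn f (D : Set (Fin n × Fin n)) ∧ D.image f = D' ∧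
              ∀ x ∈ D, f x = x ∨
                (SimpleGraph.boxProd (SimpleGraph.pathGraph n)
                  (SimpleGraph.pathGraph n)).Adj x (f x)} ≤ k := Nat.sInf_le hk
    have h2 := Nat.sInf_mem (s := {k : ℕ | ∃ D : Finset (Fin n × Fin n), D.card = k ∧
            ∀ v : Fin n × Fin n, v ∈ D ∨ ∃ u ∈ D,
              (SimpleGraph.boxProd (SimpleGraph.pathGraph n)
                (SimpleGraph.pathGraph n)).Adj u v})
      ⟨_, univ, rfl, fun v => Or.inl (mem_univ v)⟩
    obtain ⟨D, hD1, hD2⟩ := h2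
    have h3 := lower n hn D hD2
    rw [hD1] at h3
    omega

end Pool.Agent.H229R3.ED
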