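import Mathlib

set_option autoImplicit false

namespace Pool.Agent.H229R3.ED

/-- Ternary trees with natural number leaves; `nil` means undefined (value `∞`). -/
inductive T : Type
  | nil : T
  | leaf (v : ℕ) : T
  | node (a b c : T) : T

namespace T

def ch0 : T → T
  | nil => nil
  | leaf v => leaf v
  | node a _ _ => a

def ch1 : T → T
  | nil => nil
  | leaf v => leaf v
  | node _ b _ => b

def ch2 : T → T
  | nil => nil
  | leaf v => leaf v
  | node _ _ c => c

/-- child with a given digit -/
def ch (d : ℕ) (t : T) : T :=
  match d with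
  | 0 => ch0 t
  | 1 => ch1 t
  | _ => ch2 t

def isNil : T → Bool
  | nil => true
  | leaf _ => false
  | node _ _ _ => false

/-- pointwise minimum -/
def mn : T → T → T
  | nil, t => t
  | leaf a, nil => leaf a
  | leaf a, leaf b => leaf (cond (Nat.ble a b) a b)
  | leaf _, node _ _ _ => leaf 0
  | node a b c, nil => node a b c
  | node _ _ _, leaf _ => leaf 0
  | node a b c, node a' b' c' => node (mn a a') (mn b b') (mn c c')

/-- add a constant -/
def add (k : ℕ) : T → T
  | nil => nil
  | leaf v => leaf (v + k)
  | node a b c => node (add k a) (add k b) (add k c)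

/-- The value at the digit string `l` is defined and at most `v`. -/
def ub : T → List ℕ → ℕ → Prop
  | nil, _, _ => False
  | leaf a, _, v => a ≤ v
  | node _ _ _, [], _ => False
  | node a b c, d :: l, v =>
    match d with
    | 0 => ub a l v
    | 1 => ub b l v
    | _ => ub c l v

theorem ub_ch (t : T) (d : ℕ) (l : List ℕ) (v : ℕ) : ub t (d :: l) v ↔ ub (ch d t) l v := by
  cases t with
  | nil => rcases d with _ | _ | d <;> simp [ub, ch, ch0, ch1, ch2]
  | leaf a => rcases d with _ | _ | d <;> simp [ub, ch, ch0, ch1, ch2]
  | node a b c => rcases d with _ | _ | d <;> simp [ub, ch, ch0, ch1, ch2]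

theorem ub_mono (t : T) : ∀ (l : List ℕ) (v w : ℕ), v ≤ w → ub t l v → ub t l w := by
  induction t with
  | nil => intro l v w _ h; exact h
  | leaf a => intro l v w hv h; exact le_trans h hv
  | node a b c iha ihb ihc =>
    intro l v w hv h
    cases l with
    | nil => exact h
    | cons d l =>
      rcases d with _ | _ | d
      · exact iha l v w hv h
      · exact ihb l v w hv h
      · exact ihc l v w hv h

theorem ub_mn (s : T) : ∀ (t : T) (l : List ℕ) (v : ℕ),
    (ub s l v → ub (mn s t) l v) ∧ (ub t l v → ub (mn s t) l v) := by
  induction s with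
  | nil => intro t l v; exact ⟨fun h => absurd h (by simp [ub]), fun h => h⟩
  | leaf a =>
    intro t l v
    cases t with
    | nil => exact ⟨fun h => h, fun h => absurd h (by simp [ub])⟩
    | leaf b =>
      simp only [mn, ub]
      rcases hab : Nat.ble a b with _ | _
      · have : ¬ a ≤ b := by
          intro h; rw [← Nat.ble_eq] at h; rw [h] at hab; exact absurd hab (by simp)
        simp; omega
      · have : a ≤ b := Nat.ble_eq.mp hab
        simp; omega
    | node x y z => simp [mn, ub]
  | node a b c iha ihb ihc =>
    intro t l v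
    cases t with
    | nil => exact ⟨fun h => h, fun h => absurd h (by simp [ub])⟩
    | leaf b => simp [mn, ub]
    | node x y z =>
      cases l with
      | nil => exact ⟨fun h => h, fun h => h⟩
      | cons d l =>
        rcases d with _ | _ | d
        · exact iha x l v
        · exact ihb y l v
        · exact ihc z l v

theorem ub_add (k : ℕ) (t : T) : ∀ (l : List ℕ) (v : ℕ), ub t l v → ub (add k t) l (v + k) := by
  induction t with
  | nil => intro l v h; exact h
  | leaf a => intro l v h; simp only [add, ub] at *; omega
  | node a b c iha ihb ihc =>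
    intro l v h
    cases l with
    | nil => exact h
    | cons d l =>
      rcases d with _ | _ | d
      · exact iha l v h
      · exact ihb l v h
      · exact ihc l v h

/-- cost of a guard: `4` in the last row, `5` otherwise -/
def lc : ℕ → ℕ
  | 0 => 4
  | _ + 1 => 5

/-- One cell-by-cell pass of the column dynamic programme. -/
def build : ℕ → T → T → T → T
  | 0, P0, P1, P2 =>
    match P0.isNil && (P1.isNil && P2.isNil) with
    | true => nil
    | false => node P0 (mn P1 (add 1 P2)) P2
  | n + 1, P0, P1, P2 =>
    match P0.isNil && (P1.isNil && P2.isNil) with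
    | true => nil
    | false =>
      node
        (build n (add (lc n) (mn (ch0 P0) (mn (ch1 P0) (ch2 P0))))
          (mn (ch0 P0) (ch1 P0)) nil)
        (build n (add (lc n)
            (mn (mn (ch0 P1) (mn (ch1 P1) (ch2 P1))) (mn (ch0 P2) (mn (ch1 P2) (ch2 P2)))))
          (ch0 P1) (ch1 P1))
        (build n nil (ch0 P2) (ch1 P2))

/-- Full column step for `n + 1` rows. -/
def step (n : ℕ) (P : T) : T :=
  build n (add 5 (mn (ch0 P) (mn (ch1 P) (ch2 P)))) (ch0 P) (ch1 P)

/-- `chk k1 k2 f t` : wherever `t` is defined, `f` is defined and `f + k1 ≤ t + k2`. -/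
def chk (k1 k2 : ℕ) : T → T → Bool
  | _, nil => true
  | nil, leaf _ => false
  | nil, node _ _ _ => false
  | leaf a, leaf b => Nat.ble (a + k1) (b + k2)
  | leaf _, node _ _ _ => false
  | node _ _ _, leaf _ => false
  | node a b c, node a' b' c' => chk k1 k2 a a' && (chk k1 k2 b b' && chk k1 k2 c c')

theorem chk_spec (k1 k2 : ℕ) (f : T) : ∀ (t : T), chk k1 k2 f t = true →
    ∀ (l : List ℕ) (v : ℕ), ub t l v → ∃ u, ub f l u ∧ u + k1 ≤ v + k2 := by
  induction f with
  | nil =>
    intro t h l v hv
    cases t with
    | nil => exact absurd hv (by simp [ub])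
    | leaf a => simp [chk] at h
    | node a b c => simp [chk] at h
  | leaf a =>
    intro t h l v hv
    cases t with
    | nil => exact absurd hv (by simp [ub])
    | leaf b =>
      simp only [chk] at h
      have := Nat.ble_eq.mp h
      simp only [ub] at hv
      exact ⟨a, le_refl _, by omega⟩
    | node a b c => simp [chk] at h
  | node a b c iha ihb ihc =>
    intro t h l v hv
    cases t with
    | nil => exact absurd hv (by simp [ub])
    | leaf b => simp [chk] at h
    | node x y z =>
      simp only [chk, Bool.and_eq_true] at h
      obtain ⟨h1, h2, h3⟩ := h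
      cases l with
      | nil => exact absurd hv (by simp [ub])
      | cons d l =>
        rcases d with _ | _ | d
        · exact iha x h1 l v hv
        · exact ihb y h2 l v hv
        · exact ihc z h3 l v hv

/-- Decode a table of `3 ^ d` lanes of six bits (lane value `0` = undefined, `v + 1` = value `v`). -/
def decode : ℕ → ℕ → T
  | 0, N => match N with
    | 0 => nil
    | N + 1 => leaf N
  | d + 1, N => match N with
    | 0 => nil
    | N + 1 => node (decode d ((N + 1) % 2 ^ (6 * 3 ^ d))) (decode d (((N + 1) / 2 ^ (6 * 3 ^ d)) % 2 ^ (6 * 3 ^ d)))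
        (decode d ((N + 1) / 2 ^ (6 * 3 ^ d) / 2 ^ (6 * 3 ^ d)))

end T

end Pool.Agent.H229R3.ED
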